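import Mathlib

/-!
Power series coefficients of `∏ 1 / (1 - c s)` and moments.
-/

set_option autoImplicit false

open MeasureTheory Filter Topology Finset

namespace Pool.Agent.KS6_75.SI

/-- coefficients of `∏ 1 / (1 - c s)` -/
noncomputable def hs : List ℝ → ℕ → ℝ
  | [] => fun m => if m = 0 then 1 else 0
  | c :: l => fun m => ∑ i ∈ range (m + 1), hs l i * c ^ (m - i)

theorem hs_bound {B : ℝ} (hB0 : 0 ≤ B) (l : List ℝ) (hB : ∀ c ∈ l, |c| ≤ B) (m : ℕ) :
    |hs l m| ≤ 2 ^ l.length * (2 * B) ^ m := by
  induction l generalizing m with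
  | nil =>
    simp only [hs, List.length_nil, pow_zero, one_mul]
    split_ifs with h
    · simp [h]
    · rw [abs_zero]; positivity
  | cons c l ih =>
    have ih' := ih fun c hc => hB c (List.mem_cons_of_mem _ hc)
    have hc : |c| ≤ B := hB c List.mem_cons_self
    simp only [hs, List.length_cons]
    calc |∑ i ∈ range (m + 1), hs l i * c ^ (m - i)|
        ≤ ∑ i ∈ range (m + 1), |hs l i * c ^ (m - i)| := Finset.abs_sum_le_sum_abs _ _
      _ ≤ ∑ i ∈ range (m + 1), 2 ^ l.length * (2 * B) ^ m * (1 / 2) ^ (m - i) := by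
          apply Finset.sum_le_sum
          intro i hi
          have hi' : i ≤ m := Nat.lt_succ_iff.1 (mem_range.1 hi)
          rw [abs_mul, abs_pow]
          have h1 : (2 * B) ^ m = (2 * B) ^ i * (2 * B) ^ (m - i) := by
            rw [← pow_add]; congr 1; omega
          calc |hs l i| * |c| ^ (m - i) ≤ (2 ^ l.length * (2 * B) ^ i) * B ^ (m - i) := by
                gcongr
                exact ih' i
            _ = 2 ^ l.length * (2 * B) ^ m * (1 / 2) ^ (m - i) := by
                rw [h1, mul_pow 2 B (m - i), one_div, inv_pow]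
                have : (2 : ℝ) ^ (m - i) ≠ 0 := by positivity
                field_simp
      _ = 2 ^ l.length * (2 * B) ^ m * ∑ i ∈ range (m + 1), (1 / (2 : ℝ)) ^ i := by
          rw [← Finset.mul_sum]
          congr 1
          rw [← Finset.sum_range_reflect]
          refine Finset.sum_congr rfl fun i hi => ?_
          have hi' : i ≤ m := Nat.lt_succ_iff.1 (mem_range.1 hi)
          congr 1
          omega
      _ ≤ 2 ^ l.length * (2 * B) ^ m * 2 := by
          gcongr
          exact sum_geometric_two_le _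
      _ = 2 ^ (l.length + 1) * (2 * B) ^ m := by ring

theorem hs_summable {B s : ℝ} (hB0 : 0 ≤ B) (hs1 : 2 * B * |s| < 1) (l : List ℝ)
    (hB : ∀ c ∈ l, |c| ≤ B) : Summable fun m => ‖hs l m * s ^ m‖ := by
  have h0 : 0 ≤ 2 * B * |s| := by positivity
  refine Summable.of_nonneg_of_le (fun m => norm_nonneg _) (fun m => ?_)
    ((summable_geometric_of_lt_one h0 hs1).mul_left (2 ^ l.length))
  rw [norm_mul, norm_pow, Real.norm_eq_abs, Real.norm_eq_abs]
  calc |hs l m| * |s| ^ m ≤ (2 ^ l.length * (2 * B) ^ m) * |s| ^ m := by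
        gcongr
        exact hs_bound hB0 l hB m
    _ = 2 ^ l.length * (2 * B * |s|) ^ m := by rw [mul_pow _ |s|]; ring

theorem hs_hasSum {B s : ℝ} (hB0 : 0 ≤ B) (hs1 : 2 * B * |s| < 1) (l : List ℝ)
    (hB : ∀ c ∈ l, |c| ≤ B) :
    HasSum (fun m => hs l m * s ^ m) (l.map fun c => 1 / (1 - c * s)).prod := by
  induction l with
  | nil =>
    have : (fun m : ℕ => hs [] m * s ^ m) = fun m => if m = 0 then (1 : ℝ) else 0 := by
      funext m
      simp only [hs]
      split_ifs with h
      · simp [h]
      · simp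
    rw [this, List.map_nil, List.prod_nil]
    exact hasSum_ite_eq 0 1
  | cons c l ih =>
    have hB' : ∀ c ∈ l, |c| ≤ B := fun c hc => hB c (List.mem_cons_of_mem _ hc)
    have hc : |c| ≤ B := hB c List.mem_cons_self
    have h1 := ih hB'
    have hcs : ‖c * s‖ < 1 := by
      rw [norm_mul, Real.norm_eq_abs, Real.norm_eq_abs]
      have : |c| * |s| ≤ B * |s| := mul_le_mul_of_nonneg_right hc (abs_nonneg _)
      have h0 : 0 ≤ B * |s| := by positivity
      linarith
    have h2 := hasSum_geometric_of_norm_lt_one hcs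
    have h3 := hasSum_sum_range_mul_of_summable_norm (hs_summable hB0 hs1 l hB')
      (summable_norm_geometric_of_norm_lt_one hcs)
    rw [h1.tsum_eq, h2.tsum_eq] at h3
    rw [List.map_cons, List.prod_cons, one_div, mul_comm]
    refine h3.congr_fun ?_ |> fun h => h
    intro m
    simp only [hs]
    rw [Finset.sum_mul]
    refine Finset.sum_congr rfl fun i hi => ?_
    have hi' : i ≤ m := Nat.lt_succ_iff.1 (mem_range.1 hi)
    have : s ^ m = s ^ i * s ^ (m - i) := by rw [← pow_add]; congr 1; omega
    rw [this, mul_pow]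
    ring

theorem coeff_unique {a b : ℕ → ℝ} {f : ℝ → ℝ}
    (ha : ∀ᶠ s in 𝓝 (0 : ℝ), HasSum (fun m => a m * s ^ m) (f s))
    (hb : ∀ᶠ s in 𝓝 (0 : ℝ), HasSum (fun m => b m * s ^ m) (f s)) : a = b := by
  have key : ∀ c : ℕ → ℝ, (∀ᶠ s in 𝓝 (0 : ℝ), HasSum (fun m => c m * s ^ m) (f s)) →
      HasFPowerSeriesAt f (FormalMultilinearSeries.ofScalars ℝ c) 0 := by
    intro c hc
    rw [hasFPowerSeriesAt_iff]
    filter_upwards [hc] with s hs
    rw [zero_add]
    simpa [FormalMultilinearSeries.coeff_ofScalars, mul_comm] using hs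
  have h := (key a ha).eq_formalMultilinearSeries (key b hb)
  funext m
  have := congrArg (fun p : FormalMultilinearSeries ℝ ℝ ℝ => p.coeff m) h
  simpa [FormalMultilinearSeries.coeff_ofScalars] using this

section moments

variable {Ω : Type*} [MeasurableSpace Ω] {P : Measure Ω} [IsProbabilityMeasure P] {X : Ω → ℝ}

/-- the moments of `X` in terms of the coefficients -/
theorem moments {N : ℕ} {C : ℝ} (hC0 : 0 < C) (hX : Measurable X) (hC : ∀ w, |X w| ≤ C)
    (d : Fin (N + 1) → ℝ) (hd : ∀ j, |d j| ≤ C)
    (hK : ∀ s : ℝ, |s| * C < 1 → ∫ w, (1 / (1 - s * X w)) ^ (N + 1) ∂P = ∏ j, 1 / (1 - s * d j))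
    (m : ℕ) : ((m + N).choose N : ℝ) * ∫ w, X w ^ m ∂P = hs (List.ofFn d) m := by
  have hint : ∀ k : ℕ, Integrable (fun w => X w ^ k) P := fun k =>
    Integrable.of_bound (hX.pow_const k).aestronglyMeasurable (C ^ k) (ae_of_all _ fun w => by
      rw [norm_pow, Real.norm_eq_abs]
      exact pow_le_pow_left₀ (abs_nonneg _) (hC w) k)
  have h1 : (fun m : ℕ => ((m + N).choose N : ℝ) * ∫ w, X w ^ m ∂P) = hs (List.ofFn d) := by
    refine coeff_unique (f := fun s => ∏ j, 1 / (1 - s * d j)) ?_ ?_
    · have hU : Metric.ball (0 : ℝ) (1 / C) ∈ 𝓝 (0 : ℝ) := Metric.ball_mem_nhds _ (by positivity)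
      filter_upwards [hU] with s hs0
      have hs1 : |s| * C < 1 := by
        rw [Metric.mem_ball, dist_zero_right, Real.norm_eq_abs, lt_div_iff₀ hC0] at hs0
        exact hs0
      rw [← hK s hs1]
      have hr : ‖|s| * C‖ < 1 := by
        rw [Real.norm_of_nonneg (by positivity)]; exact hs1
      have hsumm := (hasSum_choose_mul_geometric_of_norm_lt_one N hr).summable
      have h2 : HasSum (fun m : ℕ => ∫ w, ((m + N).choose N : ℝ) * (s * X w) ^ m ∂P)
          (∫ w, ∑' m : ℕ, ((m + N).choose N : ℝ) * (s * X w) ^ m ∂P) := by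
        apply hasSum_integral_of_summable_integral_norm
        · intro m
          simp_rw [mul_pow]
          exact ((hint m).const_mul _).const_mul _
        · refine Summable.of_nonneg_of_le (fun m => integral_nonneg fun w => norm_nonneg _)
            (fun m => ?_) hsumm
          calc ∫ w, ‖((m + N).choose N : ℝ) * (s * X w) ^ m‖ ∂P
              ≤ ∫ w, ((m + N).choose N : ℝ) * (|s| * C) ^ m ∂P := by
                apply integral_mono_of_nonneg (ae_of_all _ fun w => norm_nonneg _)
                  (integrable_const _) (ae_of_all _ fun w => ?_)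
                simp only [norm_mul, norm_pow, Real.norm_eq_abs, Nat.abs_cast]
                gcongr
                exact hC w
            _ = ((m + N).choose N : ℝ) * (|s| * C) ^ m := by simp
      have h3 : ∀ w, ∑' m : ℕ, ((m + N).choose N : ℝ) * (s * X w) ^ m =
          (1 / (1 - s * X w)) ^ (N + 1) := by
        intro w
        have hw : ‖s * X w‖ < 1 := by
          rw [norm_mul, Real.norm_eq_abs, Real.norm_eq_abs]
          exact (mul_le_mul_of_nonneg_left (hC w) (abs_nonneg _)).trans_lt hs1
        rw [(hasSum_choose_mul_geometric_of_norm_lt_one N hw).tsum_eq, one_div_pow]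
      simp_rw [h3] at h2
      refine h2.congr_fun ?_ |> fun h => h
      intro m
      rw [integral_const_mul]
      simp_rw [mul_pow]
      rw [integral_const_mul]
      ring
    · have hU : Metric.ball (0 : ℝ) (1 / (2 * C)) ∈ 𝓝 (0 : ℝ) :=
        Metric.ball_mem_nhds _ (by positivity)
      filter_upwards [hU] with s hs0
      have hs1 : 2 * C * |s| < 1 := by
        rw [Metric.mem_ball, dist_zero_right, Real.norm_eq_abs, lt_div_iff₀ (by positivity)] at hs0
        linarith
      have h4 := hs_hasSum hC0.le hs1 (List.ofFn d) (by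
        intro c hc
        obtain ⟨j, rfl⟩ := (List.mem_ofFn' d c).1 hc
        exact hd j)
      have h5 : ((List.ofFn d).map fun c => 1 / (1 - c * s)).prod = ∏ j, 1 / (1 - s * d j) := by
        rw [List.map_ofFn, List.prod_ofFn]
        refine Finset.prod_congr rfl fun j _ => ?_
        simp only [Function.comp_apply]
        rw [mul_comm]
      rw [h5] at h4
      exact h4
  exact congrFun h1 m

end moments

end Pool.Agent.KS6_75.SI
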