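import Mathlib
import Pool.Agent.KS6_75.SI.Coef

/-!
Asymptotics of the Laplace transform in the presence of one large point `c`.
-/

set_option autoImplicit false

open MeasureTheory Filter Topology Finset

namespace Pool.Agent.KS6_75.SI

/-- the series `∑ a_m t^m / (m + k)!` -/
noncomputable def Ph (a : ℕ → ℝ) (k : ℕ) (t : ℂ) : ℂ :=
  ∑' m : ℕ, (a m : ℂ) * t ^ m / ((m + k).factorial : ℂ)

theorem exp_tail_hasSum (k : ℕ) (x : ℂ) :
    HasSum (fun m : ℕ => x ^ (m + k) / ((m + k).factorial : ℂ))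
      (Complex.exp x - ∑ i ∈ range k, x ^ i / (i.factorial : ℂ)) := by
  have h : HasSum (fun m : ℕ => x ^ m / (m.factorial : ℂ)) (Complex.exp x) := by
    rw [Complex.exp_eq_exp_ℂ]
    exact NormedSpace.expSeries_div_hasSum_exp x
  exact (hasSum_nat_add_iff' k).2 h

theorem exp_tail_hasSum_real (k : ℕ) (x : ℝ) :
    HasSum (fun m : ℕ => x ^ (m + k) / ((m + k).factorial : ℝ))
      (Real.exp x - ∑ i ∈ range k, x ^ i / (i.factorial : ℝ)) := by
  have h : HasSum (fun m : ℕ => x ^ m / (m.factorial : ℝ)) (Real.exp x) := by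
    rw [Real.exp_eq_exp_ℝ]
    exact NormedSpace.expSeries_div_hasSum_exp x
  exact (hasSum_nat_add_iff' k).2 h

/-- partial sums of the exponential series -/
theorem partial_exp_bound {κ y : ℝ} (h0 : 0 < κ) (h1 : κ ≤ 1) (hy : 0 ≤ y) (k : ℕ) :
    ∑ i ∈ range k, y ^ i / (i.factorial : ℝ) ≤ κ⁻¹ ^ k * Real.exp (κ * y) := by
  have h : ∀ i ∈ range k, y ^ i / (i.factorial : ℝ) ≤
      κ⁻¹ ^ k * ((κ * y) ^ i / (i.factorial : ℝ)) := by
    intro i hi
    have hi' : i ≤ k := (mem_range.1 hi).le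
    rw [mul_pow, mul_div_assoc, ← mul_assoc]
    have h2 : 1 ≤ κ⁻¹ ^ k * κ ^ i := by
      have e : κ⁻¹ ^ k * κ ^ i = κ⁻¹ ^ (k - i) := by
        have : κ⁻¹ ^ k = κ⁻¹ ^ (k - i) * κ⁻¹ ^ i := by rw [← pow_add]; congr 1; omega
        rw [this, mul_assoc, ← mul_pow, inv_mul_cancel₀ h0.ne', one_pow, mul_one]
      rw [e]
      exact one_le_pow₀ ((one_le_inv₀ h0).2 h1)
    have h3 : 0 ≤ y ^ i / (i.factorial : ℝ) := by positivity
    nlinarith
  refine (Finset.sum_le_sum h).trans ?_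
  rw [← Finset.mul_sum]
  have := Real.sum_le_exp_of_nonneg (x := κ * y) (by positivity) k
  gcongr

section main

variable {N : ℕ} {B c : ℝ} {d : Fin (N + 1) → ℝ}

theorem tail_bound (hB0 : 0 < B) (hc : 4 * B ≤ c) (hd0 : d 0 = c) (hd : ∀ j : Fin N, |d j.succ| ≤ B) :
    ∃ A : ℝ, (4 / 5) ^ N ≤ A ∧
      ∀ m, |c ^ m * A - hs (List.ofFn d) m| ≤ 2 ^ N * (2 * B) ^ m := by
  have hc0 : 0 < c := by linarith
  set l : List ℝ := List.ofFn (fun j : Fin N => d j.succ) with hl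
  have hll : l.length = N := List.length_ofFn
  have hlB : ∀ x ∈ l, |x| ≤ B := by
    intro x hx
    obtain ⟨j, rfl⟩ := (List.mem_ofFn' _ x).1 hx
    exact hd j
  have hs1 : 2 * B * |c⁻¹| < 1 := by
    rw [abs_of_pos (inv_pos.2 hc0), ← div_eq_mul_inv, div_lt_one hc0]
    linarith
  have hS := hs_hasSum hB0.le hs1 l hlB
  set A : ℝ := (l.map fun x => 1 / (1 - x * c⁻¹)).prod with hA
  refine ⟨A, ?_, ?_⟩
  · rw [hA, hl, List.map_ofFn, List.prod_ofFn]
    have : ∀ j : Fin N, (4 / 5 : ℝ) ≤ ((fun x : ℝ => 1 / (1 - x * c⁻¹)) ∘ fun j : Fin N => d j.succ) j := by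
      intro j
      simp only [Function.comp_apply]
      have h1 : |d j.succ * c⁻¹| ≤ 1 / 4 := by
        rw [abs_mul, abs_of_pos (inv_pos.2 hc0), ← div_eq_mul_inv, div_le_iff₀ hc0]
        have := hd j
        linarith
      rw [abs_le] at h1
      rw [le_div_iff₀ (by linarith)]
      linarith
    calc (4 / 5 : ℝ) ^ N = ∏ _j : Fin N, (4 / 5 : ℝ) := by
          rw [Finset.prod_const, Finset.card_univ, Fintype.card_fin]
      _ ≤ _ := Finset.prod_le_prod (fun _ _ => by norm_num) fun j _ => this j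
  · intro m
    have h1 : hs (List.ofFn d) m = ∑ i ∈ range (m + 1), hs l i * c ^ (m - i) := by
      rw [List.ofFn_succ, hd0]
      rfl
    have h2 : hs (List.ofFn d) m = c ^ m * ∑ i ∈ range (m + 1), hs l i * c⁻¹ ^ i := by
      rw [h1, Finset.mul_sum]
      refine Finset.sum_congr rfl fun i hi => ?_
      have hi' : i ≤ m := Nat.lt_succ_iff.1 (mem_range.1 hi)
      have : c ^ m = c ^ (m - i) * c ^ i := by rw [← pow_add]; congr 1; omega
      rw [this]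
      have h3 : c ^ i * c⁻¹ ^ i = 1 := by rw [← mul_pow, mul_inv_cancel₀ hc0.ne', one_pow]
      linear_combination (-(hs l i * c ^ (m - i))) * h3
    have h3 := (hasSum_nat_add_iff' (m + 1)).2 hS
    have h4 : |A - ∑ i ∈ range (m + 1), hs l i * c⁻¹ ^ i| ≤
        2 ^ N * (2 * B * c⁻¹) ^ (m + 1) * 2 := by
      have hg : HasSum (fun i : ℕ => 2 ^ N * (2 * B * c⁻¹) ^ (m + 1) * (1 / 2 : ℝ) ^ i)
          (2 ^ N * (2 * B * c⁻¹) ^ (m + 1) * 2) := hasSum_geometric_two.mul_left _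
      rw [← Real.norm_eq_abs, ← h3.tsum_eq]
      refine tsum_of_norm_bounded hg fun i => ?_
      rw [norm_mul, norm_pow, Real.norm_eq_abs, Real.norm_eq_abs, abs_of_pos (inv_pos.2 hc0)]
      have hb := hs_bound hB0.le l hlB (i + (m + 1))
      rw [hll] at hb
      have hq : 2 * B * c⁻¹ ≤ 1 / 2 := by
        rw [← div_eq_mul_inv, div_le_iff₀ hc0]; linarith
      have hq0 : 0 ≤ 2 * B * c⁻¹ := by positivity
      calc |hs l (i + (m + 1))| * c⁻¹ ^ (i + (m + 1))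
          ≤ 2 ^ N * (2 * B) ^ (i + (m + 1)) * c⁻¹ ^ (i + (m + 1)) := by gcongr
        _ = 2 ^ N * (2 * B * c⁻¹) ^ (m + 1) * (2 * B * c⁻¹) ^ i := by
            rw [mul_assoc, ← mul_pow, pow_add]; ring
        _ ≤ 2 ^ N * (2 * B * c⁻¹) ^ (m + 1) * (1 / 2) ^ i := by gcongr
    rw [h2, ← mul_sub, abs_mul, abs_of_pos (pow_pos hc0 m)]
    calc c ^ m * |A - ∑ i ∈ range (m + 1), hs l i * c⁻¹ ^ i|
        ≤ c ^ m * (2 ^ N * (2 * B * c⁻¹) ^ (m + 1) * 2) := by gcongr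
      _ = 2 ^ N * (2 * B) ^ m * (4 * B / c) := by
          rw [mul_pow, pow_succ c⁻¹, inv_pow]
          have : c ^ m ≠ 0 := (pow_pos hc0 m).ne'
          field_simp
          ring
      _ ≤ 2 ^ N * (2 * B) ^ m * 1 := by
          gcongr
          rw [div_le_one hc0]; exact hc
      _ = _ := mul_one _

/-- the main term of the series -/
theorem main_term (hB0 : 0 < B) (hc : 4 * B ≤ c) (hd0 : d 0 = c) (hd : ∀ j : Fin N, |d j.succ| ≤ B)
    {κ : ℝ} (hκ0 : 0 < κ) (hκ1 : κ ≤ 1) :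
    ∃ A : ℝ, 0 < A ∧ ∀ k ≤ N, ∀ t : ℂ,
      ‖(c : ℂ) ^ k * t ^ k * Ph (hs (List.ofFn d)) k t * Complex.exp (-(c * t)) / A - 1‖ ≤
        κ⁻¹ ^ (N + 1) * Real.exp (κ * c * ‖t‖ - c * t.re) +
        (5 * c / (4 * B)) ^ (N + 1) * Real.exp (2 * B * ‖t‖ - c * t.re) := by
  have hc0 : 0 < c := by linarith
  obtain ⟨A, hA1, hA2⟩ := tail_bound hB0 hc hd0 hd
  have hA0 : 0 < A := lt_of_lt_of_le (by positivity) hA1
  refine ⟨A, hA0, fun k hk t => ?_⟩
  set a := hs (List.ofFn d) with ha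
  set D : ℕ → ℝ := fun m => c ^ m * A - a m with hD
  -- the sum of the tail part
  have h1 := exp_tail_hasSum k ((c : ℂ) * t)
  have h2 : HasSum (fun m : ℕ => (A : ℂ) * (((c : ℂ) * t) ^ (m + k) / ((m + k).factorial : ℂ)))
      ((A : ℂ) * (Complex.exp (c * t) - ∑ i ∈ range k, ((c : ℂ) * t) ^ i / (i.factorial : ℂ))) :=
    h1.mul_left _
  have h3 : Summable (fun m : ℕ => (c : ℂ) ^ k * ((D m : ℂ) * t ^ (m + k) / ((m + k).factorial : ℂ))) ∧
      ‖∑' m : ℕ, (c : ℂ) ^ k * ((D m : ℂ) * t ^ (m + k) / ((m + k).factorial : ℂ))‖ ≤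
        c ^ k * (2 ^ N * (2 * B)⁻¹ ^ k) * Real.exp (2 * B * ‖t‖) := by
    have h4 := exp_tail_hasSum_real k (2 * B * ‖t‖)
    have h5 := h4.mul_left (c ^ k * (2 ^ N * (2 * B)⁻¹ ^ k))
    have h6 : ∀ m : ℕ, ‖(c : ℂ) ^ k * ((D m : ℂ) * t ^ (m + k) / ((m + k).factorial : ℂ))‖ ≤
        c ^ k * (2 ^ N * (2 * B)⁻¹ ^ k) * ((2 * B * ‖t‖) ^ (m + k) / ((m + k).factorial : ℝ)) := by
      intro m
      rw [norm_mul, norm_pow, norm_div, norm_mul, norm_pow, Complex.norm_real, Complex.norm_real,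
        Real.norm_of_nonneg hc0.le, Real.norm_eq_abs, Complex.norm_natCast]
      have h7 := hA2 m
      have h8 : (2 * B)⁻¹ ^ k * (2 * B) ^ (m + k) = (2 * B) ^ m := by
        rw [pow_add, mul_comm, mul_assoc, ← mul_pow, mul_inv_cancel₀ (by positivity), one_pow, mul_one]
      calc c ^ k * (|D m| * ‖t‖ ^ (m + k) / ((m + k).factorial : ℝ))
          ≤ c ^ k * ((2 ^ N * (2 * B) ^ m) * ‖t‖ ^ (m + k) / ((m + k).factorial : ℝ)) := by gcongr
        _ = c ^ k * (2 ^ N * (2 * B)⁻¹ ^ k) *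
            ((2 * B * ‖t‖) ^ (m + k) / ((m + k).factorial : ℝ)) := by
            rw [← h8, mul_pow (2 * B) ‖t‖]; ring
    refine ⟨h5.summable.of_norm_bounded h6, ?_⟩
    refine (tsum_of_norm_bounded h5 h6).trans ?_
    have h9 : 0 ≤ ∑ i ∈ range k, (2 * B * ‖t‖) ^ i / (i.factorial : ℝ) :=
      Finset.sum_nonneg fun i _ => by positivity
    have h10 : 0 ≤ c ^ k * (2 ^ N * (2 * B)⁻¹ ^ k) := by positivity
    nlinarith
  have h4 : (c : ℂ) ^ k * t ^ k * Ph a k t =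
      (A : ℂ) * (Complex.exp (c * t) - ∑ i ∈ range k, ((c : ℂ) * t) ^ i / (i.factorial : ℂ)) -
        ∑' m : ℕ, (c : ℂ) ^ k * ((D m : ℂ) * t ^ (m + k) / ((m + k).factorial : ℂ)) := by
    rw [← h2.tsum_eq, ← h2.summable.tsum_sub h3.1, Ph, ← tsum_mul_left]
    congr 1
    funext m
    simp only [hD]
    push_cast
    rw [mul_pow]
    ring
  have h5 : ‖∑ i ∈ range k, ((c : ℂ) * t) ^ i / (i.factorial : ℂ)‖ ≤
      κ⁻¹ ^ k * Real.exp (κ * (c * ‖t‖)) := by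
    refine (norm_sum_le _ _).trans ?_
    refine le_trans (le_of_eq ?_) (partial_exp_bound hκ0 hκ1 (by positivity) k)
    refine Finset.sum_congr rfl fun i _ => ?_
    rw [norm_div, norm_pow, norm_mul, Complex.norm_real, Real.norm_of_nonneg hc0.le,
      Complex.norm_natCast]
  have hAc : (A : ℂ) ≠ 0 := by exact_mod_cast hA0.ne'
  have hexp : Complex.exp (c * t) * Complex.exp (-(c * t)) = 1 := by
    rw [← Complex.exp_add]; simp
  have h6 : (c : ℂ) ^ k * t ^ k * Ph a k t * Complex.exp (-(c * t)) / A - 1 =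
      -(∑ i ∈ range k, ((c : ℂ) * t) ^ i / (i.factorial : ℂ)) * Complex.exp (-(c * t)) -
      (∑' m : ℕ, (c : ℂ) ^ k * ((D m : ℂ) * t ^ (m + k) / ((m + k).factorial : ℂ))) / A *
        Complex.exp (-(c * t)) := by
    rw [h4]
    field_simp
    linear_combination (A : ℂ) * hexp
  have hne : ‖Complex.exp (-((c : ℂ) * t))‖ = Real.exp (-(c * t.re)) := by
    rw [Complex.norm_exp]
    simp
  rw [h6]
  refine (norm_sub_le _ _).trans ?_
  rw [norm_mul, norm_neg, norm_mul, norm_div, hne, Complex.norm_real, Real.norm_of_nonneg hA0.le]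
  have hκinv : 1 ≤ κ⁻¹ := (one_le_inv₀ hκ0).2 hκ1
  apply add_le_add
  · calc ‖∑ i ∈ range k, ((c : ℂ) * t) ^ i / (i.factorial : ℂ)‖ * Real.exp (-(c * t.re))
        ≤ (κ⁻¹ ^ k * Real.exp (κ * (c * ‖t‖))) * Real.exp (-(c * t.re)) := by gcongr
      _ = κ⁻¹ ^ k * Real.exp (κ * c * ‖t‖ - c * t.re) := by
          rw [mul_assoc, ← Real.exp_add]; congr 2; ring
      _ ≤ κ⁻¹ ^ (N + 1) * Real.exp (κ * c * ‖t‖ - c * t.re) := by
          have : κ⁻¹ ^ k ≤ κ⁻¹ ^ (N + 1) := pow_le_pow_right₀ hκinv (by omega)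
          gcongr
  · have hAinv : A⁻¹ ≤ (5 / 4) ^ N := by
      have h7 : (5 / 4 : ℝ) ^ N = ((4 / 5) ^ N)⁻¹ := by rw [← inv_pow]; norm_num
      rw [h7]
      exact inv_anti₀ (by positivity) hA1
    have hcB : 1 ≤ c / (2 * B) := by rw [le_div_iff₀ (by positivity)]; linarith
    have hcB5 : 1 ≤ 5 * c / (4 * B) := by rw [le_div_iff₀ (by positivity)]; linarith
    calc ‖∑' m : ℕ, (c : ℂ) ^ k * ((D m : ℂ) * t ^ (m + k) / ((m + k).factorial : ℂ))‖ / A *
          Real.exp (-(c * t.re))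
        ≤ (c ^ k * (2 ^ N * (2 * B)⁻¹ ^ k) * Real.exp (2 * B * ‖t‖)) / A * Real.exp (-(c * t.re)) := by
          gcongr
          exact h3.2
      _ = A⁻¹ * (2 ^ N * (c / (2 * B)) ^ k) * Real.exp (2 * B * ‖t‖ - c * t.re) := by
          rw [sub_eq_add_neg, Real.exp_add, div_pow, inv_pow]
          field_simp
      _ ≤ (5 / 4) ^ N * (2 ^ N * (c / (2 * B)) ^ N) * Real.exp (2 * B * ‖t‖ - c * t.re) := by
          gcongr
      _ = (5 * c / (4 * B)) ^ N * Real.exp (2 * B * ‖t‖ - c * t.re) := by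
          rw [← mul_pow, ← mul_pow]
          congr 2
          field_simp
      _ ≤ (5 * c / (4 * B)) ^ (N + 1) * Real.exp (2 * B * ‖t‖ - c * t.re) := by
          have : (5 * c / (4 * B)) ^ N ≤ (5 * c / (4 * B)) ^ (N + 1) :=
            pow_le_pow_right₀ hcB5 (by omega)
          gcongr

end main

end Pool.Agent.KS6_75.SI
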