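import Mathlib

/-!
Extrapolation: a Laplace transform which is very small on a long part of the imaginary axis is small
at the origin.
-/

set_option autoImplicit false

open MeasureTheory Filter Topology Finset

namespace Pool.Agent.KS6_75.SI

theorem choose_le (k M : ℕ) : (((k + M).choose M : ℕ) : ℝ) ≤ 2 ^ (k + M) := by
  have := Nat.choose_le_two_pow (k + M) M
  exact_mod_cast this

theorem neg_binomial {w : ℂ} (hw : ‖w‖ ≤ 1 / 16) (M : ℕ) :
    ‖1 / (1 - w) ^ (M + 1) - ∑ k ∈ range (M + 1), ((k + M).choose M : ℂ) * w ^ k‖ ≤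
      (1 / 4) ^ (M + 1) := by
  have hw1 : ‖w‖ < 1 := hw.trans_lt (by norm_num)
  have h1 := hasSum_choose_mul_geometric_of_norm_lt_one M hw1
  have h2 := (hasSum_nat_add_iff' (M + 1)).2 h1
  rw [← h2.tsum_eq]
  have h3 : HasSum (fun i : ℕ => (2 : ℝ) ^ M * (1 / 8) ^ (M + 1) * (1 / 8) ^ i)
      (2 ^ M * (1 / 8) ^ (M + 1) * (1 - 1 / 8)⁻¹) :=
    (hasSum_geometric_of_lt_one (by norm_num) (by norm_num)).mul_left _
  refine (tsum_of_norm_bounded h3 fun i => ?_).trans ?_
  · rw [norm_mul, norm_pow, Complex.norm_natCast]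
    calc (((i + (M + 1) + M).choose M : ℕ) : ℝ) * ‖w‖ ^ (i + (M + 1))
        ≤ 2 ^ (i + (M + 1) + M) * (1 / 16) ^ (i + (M + 1)) := by
          gcongr
          exact choose_le _ _
      _ = 2 ^ M * (1 / 8) ^ (M + 1) * (1 / 8) ^ i := by
          have h4 : (2 : ℝ) ^ (i + (M + 1) + M) * (1 / 16) ^ (i + (M + 1)) =
              2 ^ M * (2 * (1 / 16)) ^ (i + (M + 1)) := by
            rw [mul_pow, pow_add 2 (i + (M + 1)) M]; ring
          rw [h4, pow_add, show (2 : ℝ) * (1 / 16) = 1 / 8 by norm_num]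
          ring
  · calc (2 : ℝ) ^ M * (1 / 8) ^ (M + 1) * (1 - 1 / 8)⁻¹
        ≤ 2 ^ M * (1 / 8) ^ (M + 1) * 2 := by
          have : (1 - 1 / 8 : ℝ)⁻¹ ≤ 2 := by norm_num
          gcongr
      _ = (2 * (1 / 8)) ^ (M + 1) := by rw [mul_pow, pow_succ 2]; ring
      _ = (1 / 4) ^ (M + 1) := by norm_num

theorem extrap {Ω : Type*} [MeasurableSpace Ω] {P : Measure Ω} [IsProbabilityMeasure P]
    {Z : Ω → ℂ} (hZ : Measurable Z) (h1 : ∀ w, ‖Z w‖ = 1) (h2 : ∀ w, ‖1 - Z w‖ ≤ 1 / 16)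
    {M : ℕ} {m : ℝ} (hm : ∀ i ≤ M, ‖∫ w, Z w ^ (M + 1 + i) ∂P‖ ≤ m) :
    1 ≤ 8 ^ (M + 1) * m + (1 / 4) ^ (M + 1) := by
  have hm0 : 0 ≤ m := (norm_nonneg _).trans (hm 0 (by omega))
  have hint : ∀ k : ℕ, Integrable (fun w => Z w ^ k) P := fun k =>
    Integrable.of_bound (hZ.pow_const k).aestronglyMeasurable 1 (ae_of_all _ fun w => by
      rw [norm_pow, h1 w, one_pow])
  let R : Ω → ℂ := fun w => Z w ^ (M + 1) *
    ∑ k ∈ range (M + 1), ((k + M).choose M : ℂ) * (1 - Z w) ^ k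
  have hR : ∀ w, ‖1 - R w‖ ≤ (1 / 4) ^ (M + 1) := by
    intro w
    have hZ0 : Z w ≠ 0 := by
      intro h
      have := h1 w
      rw [h, norm_zero] at this
      exact zero_ne_one this
    have h3 := neg_binomial (h2 w) M
    rw [sub_sub_cancel] at h3
    have h4 : 1 - R w = Z w ^ (M + 1) * (1 / Z w ^ (M + 1) -
        ∑ k ∈ range (M + 1), ((k + M).choose M : ℂ) * (1 - Z w) ^ k) := by
      simp only [R]
      rw [mul_sub, mul_one_div, div_self (pow_ne_zero _ hZ0)]
    rw [h4, norm_mul, norm_pow, h1 w, one_pow, one_mul]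
    exact h3
  have hexp : ∀ w, R w = ∑ k ∈ range (M + 1), ∑ i ∈ range (k + 1),
      (((k + M).choose M : ℂ) * ((-1) ^ i * (k.choose i : ℂ))) * Z w ^ (M + 1 + i) := by
    intro w
    simp only [R]
    rw [Finset.mul_sum]
    refine Finset.sum_congr rfl fun k _ => ?_
    have : (1 - Z w) ^ k = ∑ i ∈ range (k + 1), (-1) ^ i * (k.choose i : ℂ) * Z w ^ i := by
      rw [sub_eq_neg_add, add_pow]
      refine Finset.sum_congr rfl fun i _ => ?_
      rw [neg_pow, one_pow]
      ring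
    rw [this, Finset.mul_sum, Finset.mul_sum]
    refine Finset.sum_congr rfl fun i _ => ?_
    rw [pow_add]
    ring
  have hRi : Integrable R P := by
    have : R = fun w => ∑ k ∈ range (M + 1), ∑ i ∈ range (k + 1),
      (((k + M).choose M : ℂ) * ((-1) ^ i * (k.choose i : ℂ))) * Z w ^ (M + 1 + i) := by
      funext w; exact hexp w
    rw [this]
    exact integrable_finsetSum _ fun k _ => integrable_finsetSum _ fun i _ => (hint _).const_mul _
  have h5 : ‖∫ w, (1 - R w) ∂P‖ ≤ (1 / 4) ^ (M + 1) := by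
    have := norm_integral_le_of_norm_le_const (μ := P) (f := fun w => 1 - R w)
      (ae_of_all _ hR)
    simpa using this
  have h6 : ∫ w, (1 - R w) ∂P = 1 - ∫ w, R w ∂P := by
    rw [integral_sub (integrable_const _) hRi]
    simp
  have h7 : ‖∫ w, R w ∂P‖ ≤ 8 ^ (M + 1) * m := by
    simp_rw [hexp]
    rw [integral_finsetSum _ fun k _ => integrable_finsetSum _ fun i _ => (hint _).const_mul _]
    have h8 : ∀ k ∈ range (M + 1), ‖∫ w, ∑ i ∈ range (k + 1),
        (((k + M).choose M : ℂ) * ((-1) ^ i * (k.choose i : ℂ))) * Z w ^ (M + 1 + i) ∂P‖ ≤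
        2 ^ (k + M) * 2 ^ k * m := by
      intro k hk
      have hk' : k ≤ M := Nat.lt_succ_iff.1 (mem_range.1 hk)
      rw [integral_finsetSum _ fun i _ => (hint _).const_mul _]
      refine (norm_sum_le _ _).trans ?_
      calc ∑ i ∈ range (k + 1), ‖∫ w, (((k + M).choose M : ℂ) * ((-1) ^ i * (k.choose i : ℂ))) *
            Z w ^ (M + 1 + i) ∂P‖
          ≤ ∑ i ∈ range (k + 1), 2 ^ (k + M) * (k.choose i : ℝ) * m := by
            apply Finset.sum_le_sum
            intro i hi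
            have hi' : i ≤ k := Nat.lt_succ_iff.1 (mem_range.1 hi)
            rw [integral_const_mul, norm_mul, norm_mul, norm_mul, norm_pow, norm_neg, norm_one,
              one_pow, one_mul, Complex.norm_natCast, Complex.norm_natCast]
            have h9 := hm i (hi'.trans hk')
            have h10 := choose_le k M
            gcongr
        _ = 2 ^ (k + M) * 2 ^ k * m := by
            rw [← Finset.sum_mul, ← Finset.mul_sum]
            have := Nat.sum_range_choose k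
            have h11 : ∑ i ∈ range (k + 1), (k.choose i : ℝ) = 2 ^ k := by exact_mod_cast this
            rw [h11]
    refine (norm_sum_le _ _).trans ((Finset.sum_le_sum h8).trans ?_)
    rw [← Finset.sum_mul]
    have h12 : ∑ k ∈ range (M + 1), (2 : ℝ) ^ (k + M) * 2 ^ k ≤ 8 ^ (M + 1) := by
      have h13 : ∀ k ∈ range (M + 1), (2 : ℝ) ^ (k + M) * 2 ^ k = 2 ^ M * 4 ^ k := by
        intro k _
        rw [pow_add, show (4 : ℝ) = 2 * 2 by norm_num, mul_pow]; ring
      rw [Finset.sum_congr rfl h13, ← Finset.mul_sum, geom_sum_eq (by norm_num)]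
      have h14 : (8 : ℝ) ^ (M + 1) = 2 ^ (M + 1) * 4 ^ (M + 1) := by rw [← mul_pow]; norm_num
      rw [h14]
      have h15 : (2 : ℝ) ^ M ≤ 2 ^ (M + 1) := pow_le_pow_right₀ (by norm_num) (by omega)
      have h16 : ((4 : ℝ) ^ (M + 1) - 1) / (4 - 1) ≤ 4 ^ (M + 1) := by
        have : (0 : ℝ) < 4 ^ (M + 1) := by positivity
        rw [div_le_iff₀ (by norm_num)]
        linarith
      have h17 : 0 ≤ ((4 : ℝ) ^ (M + 1) - 1) / (4 - 1) := by
        have : (1 : ℝ) ≤ 4 ^ (M + 1) := one_le_pow₀ (by norm_num)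
        apply div_nonneg <;> linarith
      exact mul_le_mul h15 h16 h17 (by positivity)
    exact mul_le_mul_of_nonneg_right h12 hm0
  rw [h6] at h5
  have h8 : (1 : ℝ) = ‖(1 : ℂ)‖ := by simp
  calc (1 : ℝ) = ‖(1 - ∫ w, R w ∂P) + ∫ w, R w ∂P‖ := by rw [sub_add_cancel]; exact h8
    _ ≤ ‖1 - ∫ w, R w ∂P‖ + ‖∫ w, R w ∂P‖ := norm_add_le _ _
    _ ≤ (1 / 4) ^ (M + 1) + 8 ^ (M + 1) * m := add_le_add h5 h7
    _ = _ := by ring

end Pool.Agent.KS6_75.SI
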