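import Mathlib
import Pool.Graph.R_seed8.Helper509.SphDefs
import Pool.Graph.R_seed8.Helper509.SphRed

/-!
The identity `∫ (1 - s q(U)) ^ (-n) dU = ∏ (1 - s d_j)⁻¹` on the unitary group, where
`q(U) = ∑ d_j |U_{j0}|²`.
-/

set_option autoImplicit false

open MeasureTheory Filter Topology Matrix

namespace Pool.Agent.KS6_75.SI

open Pool.Agent.Helper509.SphDefs Pool.Agent.Helper509.SphRed

variable {N : ℕ}

/-- right invariance of the Haar measure of the unitary group -/
theorem map_mul_right (n : ℕ) (W : unitaryGroup (Fin n) ℂ) :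
    (haarU n).map (fun U => U * W) = haarU n := by
  have : IsProbabilityMeasure ((haarU n).map (fun U => U * W)) :=
    Measure.isProbabilityMeasure_map (continuous_mul_const W).measurable.aemeasurable
  have : (haarU n).IsHaarMeasure := by unfold haarU; infer_instance
  have h := Measure.isMulInvariant_eq_smul_of_compactSpace
    ((haarU n).map (fun U => U * W)) (haarU n)
  have h1 : ((haarU n).map (fun U => U * W)) Set.univ = 1 := measure_univ
  rw [h] at h1 ⊢
  rw [Measure.smul_apply, measure_univ] at h1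
  have h2 : ((Measure.haarScalarFactor ((haarU n).map (fun U => U * W)) (haarU n) : NNReal) : ENNReal) = 1 := by
    simpa [ENNReal.smul_def] using h1
  have h3 : Measure.haarScalarFactor ((haarU n).map (fun U => U * W)) (haarU n) = 1 := by
    exact_mod_cast h2
  rw [h3, one_smul]

/-- the linear form `q(U) = ∑ d_j |U_{j0}|²` -/
noncomputable def q (d : Fin (N + 1) → ℝ) (U : unitaryGroup (Fin (N + 1)) ℂ) : ℝ :=
  ∑ j, d j * ‖U.1 j 0‖ ^ 2

theorem q_cont (d : Fin (N + 1) → ℝ) : Continuous (q d) := by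
  unfold q
  refine continuous_finsetSum _ fun j _ => ?_
  exact (((continuous_subtype_val.matrix_elem j 0).norm).pow 2).const_mul _

theorem col_sum (U : unitaryGroup (Fin (N + 1)) ℂ) : ∑ j, ‖U.1 j 0‖ ^ 2 = 1 := by
  have h := congrFun (congrFun (mem_unitaryGroup_iff'.1 U.2) 0) 0
  rw [mul_apply, one_apply_eq] at h
  have h3 : ∀ j, (star U.1) 0 j * U.1 j 0 = ((‖U.1 j 0‖ ^ 2 : ℝ) : ℂ) := by
    intro j
    rw [star_apply, Complex.ofReal_pow]
    exact Complex.conj_mul' _
  simp only [h3] at h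
  exact_mod_cast h

theorem q_le {d : Fin (N + 1) → ℝ} {B : ℝ} (hB : ∀ j, |d j| ≤ B)
    (U : unitaryGroup (Fin (N + 1)) ℂ) : |q d U| ≤ B := by
  unfold q
  calc |∑ j, d j * ‖U.1 j 0‖ ^ 2| ≤ ∑ j, |d j * ‖U.1 j 0‖ ^ 2| := Finset.abs_sum_le_sum_abs _ _
    _ ≤ ∑ j, B * ‖U.1 j 0‖ ^ 2 := by
        apply Finset.sum_le_sum
        intro j _
        rw [abs_mul, abs_of_nonneg (sq_nonneg ‖U.1 j 0‖)]
        exact mul_le_mul_of_nonneg_right (hB j) (sq_nonneg _)
    _ = B := by rw [← Finset.mul_sum, col_sum, mul_one]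

/-- unitary matrices preserve the Lebesgue measure -/
theorem map_mulVec (U : unitaryGroup (Fin (N + 1)) ℂ) :
    (volume : Measure (Fin (N + 1) → ℂ)).map (fun x => U.1 *ᵥ x) = volume := by
  set f : (Fin (N + 1) → ℂ) →ₗ[ℝ] (Fin (N + 1) → ℂ) := (mulVecLin U.1).restrictScalars ℝ with hf
  have hdet : |LinearMap.det f| = 1 := by
    rw [hf, LinearMap.det_restrictScalars, Algebra.norm_complex_eq]
    have h1 : LinearMap.det (mulVecLin U.1) = U.1.det := by
      rw [← Matrix.toLin'_apply', LinearMap.det_toLin']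
    rw [h1]
    have h2 : U.1.det ∈ unitary ℂ := det_of_mem_unitary U.2
    have h3 : ‖U.1.det‖ = 1 := by
      have := CStarRing.norm_of_mem_unitary h2
      exact this
    have h4 : Complex.normSq U.1.det = 1 := by
      rw [Complex.normSq_eq_norm_sq, h3, one_pow]
    simp [h4]
  have hne : LinearMap.det f ≠ 0 := by
    intro h
    rw [h, abs_zero] at hdet
    exact zero_ne_one hdet
  have := Measure.map_linearMap_addHaar_eq_smul_addHaar (volume : Measure (Fin (N + 1) → ℂ)) hne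
  rw [abs_inv, hdet, inv_one, ENNReal.ofReal_one, one_smul] at this
  exact this

theorem lintegral_mulVec (U : unitaryGroup (Fin (N + 1)) ℂ) {F : (Fin (N + 1) → ℂ) → ENNReal}
    (hF : Measurable F) : ∫⁻ x, F (U.1 *ᵥ x) = ∫⁻ x, F x := by
  have hm : Measurable (fun x : Fin (N + 1) → ℂ => U.1 *ᵥ x) :=
    (Continuous.matrix_mulVec continuous_const continuous_id).measurable
  conv_rhs => rw [← map_mulVec U]
  rw [lintegral_map hF hm]

theorem gauss_one {l : ℝ} (hl : 0 < l) : Integrable (fun z : ℂ => Real.exp (-l * ‖z‖ ^ 2)) ∧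
    ∫ z : ℂ, Real.exp (-l * ‖z‖ ^ 2) = Real.pi / l := by
  have h1 : ∫ z : ℂ, Real.exp (-l * ‖z‖ ^ 2) = Real.pi / l := by
    have := GaussianFourier.integral_rexp_neg_mul_sq_norm (V := ℂ) hl
    rw [this, Complex.finrank_real_complex]
    simp
  refine ⟨?_, h1⟩
  by_contra h
  rw [integral_undef h] at h1
  have := div_pos Real.pi_pos hl
  linarith

theorem gauss {l : Fin (N + 1) → ℝ} (hl : ∀ j, 0 < l j) :
    ∫⁻ x : Fin (N + 1) → ℂ, ENNReal.ofReal (Real.exp (-∑ j, l j * ‖x j‖ ^ 2)) =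
      ENNReal.ofReal (∏ j, Real.pi / l j) := by
  have h1 : ∀ x : Fin (N + 1) → ℂ, Real.exp (-∑ j, l j * ‖x j‖ ^ 2) =
      ∏ j, Real.exp (-l j * ‖x j‖ ^ 2) := by
    intro x
    rw [← Real.exp_sum, ← Finset.sum_neg_distrib]
    congr 1
    exact Finset.sum_congr rfl fun j _ => by ring
  simp_rw [h1]
  have h2 : Integrable (fun x : Fin (N + 1) → ℂ => ∏ j, Real.exp (-l j * ‖x j‖ ^ 2)) :=
    Integrable.fintype_prod (f := fun j (z : ℂ) => Real.exp (-l j * ‖z‖ ^ 2))
      (fun j => (gauss_one (hl j)).1)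
  rw [← ofReal_integral_eq_lintegral_ofReal h2 (ae_of_all _ fun x => by positivity)]
  congr 1
  rw [integral_fintype_prod_volume_eq_prod (fun j (z : ℂ) => Real.exp (-l j * ‖z‖ ^ 2))]
  exact Finset.prod_congr rfl fun j _ => (gauss_one (hl j)).2

lemma exists_col (c : Fin (N + 1) → ℂ) (hc : ∑ i, ‖c i‖ ^ 2 = 1) :
    ∃ V : unitaryGroup (Fin (N + 1)) ℂ, ∀ i, V.1 i 0 = c i := by
  have h1 : Orthonormal ℂ (({0} : Set (Fin (N + 1))).domRestrict
      fun _ => (WithLp.toLp 2 (fun i => (starRingEnd ℂ) (c i)) : EuclideanSpace ℂ (Fin (N + 1)))) := by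
    refine ⟨fun _ => ?_, fun i j hij => absurd (Subsingleton.elim i j) hij⟩
    simp only [Set.domRestrict_apply, EuclideanSpace.norm_eq]
    simp only [RCLike.norm_conj]
    rw [hc, Real.sqrt_one]
  obtain ⟨b, hb⟩ := h1.exists_orthonormalBasis_extension_of_card_eq (by simp)
  have hm : (Matrix.of fun i j => b i j : Matrix (Fin (N + 1)) (Fin (N + 1)) ℂ) ∈
      unitaryGroup (Fin (N + 1)) ℂ := by
    rw [Matrix.mem_unitaryGroup_iff]
    ext i j
    have := orthonormal_iff_ite.1 b.orthonormal j i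
    rw [Matrix.mul_apply, Matrix.one_apply]
    simp only [PiLp.inner_apply, RCLike.inner_apply] at this
    simp only [Matrix.of_apply, Matrix.star_apply, RCLike.star_def, this, eq_comm]
  refine ⟨star ⟨_, hm⟩, fun i => ?_⟩
  rw [Unitary.coe_star, star_apply]
  simp [hb 0 rfl]

/-- integration over the unitary group of a function of `U x` -/
theorem inner_eq {l : Fin (N + 1) → ℝ} (x : Fin (N + 1) → ℂ) :
    ∫⁻ U, ENNReal.ofReal (Real.exp (-∑ j, l j * ‖((U : unitaryGroup (Fin (N + 1)) ℂ).1 *ᵥ x) j‖ ^ 2))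
      ∂(haarU (N + 1)) =
    ∫⁻ U, ENNReal.ofReal (Real.exp (-∑ j, q l U * ‖x j‖ ^ 2)) ∂(haarU (N + 1)) := by
  set R2 : ℝ := ∑ j, ‖x j‖ ^ 2 with hR2
  have hR0 : 0 ≤ R2 := Finset.sum_nonneg fun j _ => sq_nonneg _
  have e2 : ∀ U : unitaryGroup (Fin (N + 1)) ℂ, ∑ j, q l U * ‖x j‖ ^ 2 = q l U * R2 := by
    intro U; rw [hR2, Finset.mul_sum]
  simp_rw [e2]
  rcases hR0.eq_or_lt with h0 | h0
  · have hx : x = 0 := by
      funext j
      have := (Finset.sum_eq_zero_iff_of_nonneg (fun j _ => sq_nonneg ‖x j‖)).1 h0.symm j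
        (Finset.mem_univ j)
      simpa [div_pow] using this
    simp [hx, ← h0]
  · set r : ℝ := √R2 with hr
    have hr0 : 0 < r := Real.sqrt_pos.2 h0
    have hrsq : r ^ 2 = R2 := Real.sq_sqrt hR0
    obtain ⟨W, hW⟩ := exists_col (fun i => x i / (r : ℂ)) (by
      simp only [norm_div, Complex.norm_real, Real.norm_of_nonneg hr0.le, div_pow]
      rw [← Finset.sum_div, ← hR2, hrsq, div_self h0.ne'])
    have hmv : ∀ (U : unitaryGroup (Fin (N + 1)) ℂ) (j : Fin (N + 1)),
        (U.1 *ᵥ x) j = r * (U * W).1 j 0 := by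
      intro U j
      rw [Submonoid.coe_mul, mul_apply, mulVec, dotProduct, Finset.mul_sum]
      refine Finset.sum_congr rfl fun k _ => ?_
      rw [hW k]
      have : (r : ℂ) ≠ 0 := by exact_mod_cast hr0.ne'
      field_simp
    have e3 : ∀ U : unitaryGroup (Fin (N + 1)) ℂ,
        ∑ j, l j * ‖(U.1 *ᵥ x) j‖ ^ 2 = q l (U * W) * R2 := by
      intro U
      unfold q
      rw [Finset.sum_mul]
      refine Finset.sum_congr rfl fun j _ => ?_
      rw [hmv, norm_mul, Complex.norm_real, Real.norm_of_nonneg hr0.le, mul_pow, hrsq]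
      ring
    simp_rw [e3]
    have hm : Measurable (fun U : unitaryGroup (Fin (N + 1)) ℂ =>
        ENNReal.ofReal (Real.exp (-(q l U * R2)))) := by
      apply ENNReal.measurable_ofReal.comp
      exact (Real.continuous_exp.comp ((q_cont l).mul_const R2).neg).measurable
    have := lintegral_map (μ := haarU (N + 1)) hm (continuous_mul_const W).measurable
    rw [map_mul_right] at this
    exact this.symm

/-- the basic identity, first form -/
theorem basic {l : Fin (N + 1) → ℝ} (hl : ∀ j, 0 < l j) :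
    ∫ U, (1 / q l U) ^ (N + 1) ∂(haarU (N + 1)) = ∏ j, 1 / l j := by
  obtain ⟨k, hk0, hk⟩ : ∃ k : ℝ, 0 < k ∧ ∀ j, k ≤ l j := by
    obtain ⟨j0, -, hj0⟩ := Finset.exists_min_image Finset.univ l ⟨0, Finset.mem_univ _⟩
    exact ⟨l j0, hl j0, fun j => hj0 j (Finset.mem_univ j)⟩
  have hq : ∀ U : unitaryGroup (Fin (N + 1)) ℂ, k ≤ q l U := by
    intro U
    unfold q
    calc k = ∑ j, k * ‖U.1 j 0‖ ^ 2 := by rw [← Finset.mul_sum, col_sum, mul_one]
      _ ≤ _ := Finset.sum_le_sum fun j _ => mul_le_mul_of_nonneg_right (hk j) (sq_nonneg _)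
  let G : unitaryGroup (Fin (N + 1)) ℂ → (Fin (N + 1) → ℂ) → ENNReal := fun U x =>
    ENNReal.ofReal (Real.exp (-∑ j, l j * ‖(U.1 *ᵥ x) j‖ ^ 2))
  have hGc : Continuous (fun p : unitaryGroup (Fin (N + 1)) ℂ × (Fin (N + 1) → ℂ) =>
      Real.exp (-∑ j, l j * ‖(p.1.1 *ᵥ p.2) j‖ ^ 2)) := by
    refine Real.continuous_exp.comp (Continuous.neg (continuous_finsetSum _ fun j _ => ?_))
    refine Continuous.const_mul (((Continuous.norm ?_)).pow 2) _
    exact (continuous_apply j).comp (Continuous.matrix_mulVec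
      (continuous_subtype_val.comp continuous_fst) continuous_snd)
  have hF : Measurable (fun x : Fin (N + 1) → ℂ =>
      ENNReal.ofReal (Real.exp (-∑ j, l j * ‖x j‖ ^ 2))) := by
    apply ENNReal.measurable_ofReal.comp
    apply Continuous.measurable
    fun_prop
  have h1 : ∀ U : unitaryGroup (Fin (N + 1)) ℂ, ∫⁻ x, G U x = ENNReal.ofReal (∏ j, Real.pi / l j) := by
    intro U
    rw [← gauss hl]
    exact lintegral_mulVec U hF
  have h2 : ∫⁻ U, ∫⁻ x, G U x ∂volume ∂(haarU (N + 1)) = ENNReal.ofReal (∏ j, Real.pi / l j) := by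
    simp_rw [h1]
    rw [lintegral_const, measure_univ, mul_one]
  have h3 : ∫⁻ U, ∫⁻ x, G U x ∂volume ∂(haarU (N + 1)) =
      ∫⁻ x, ∫⁻ U, G U x ∂(haarU (N + 1)) ∂volume := by
    apply lintegral_lintegral_swap
    exact (ENNReal.measurable_ofReal.comp hGc.measurable).aemeasurable
  have h4 : ∫⁻ x, ∫⁻ U, G U x ∂(haarU (N + 1)) ∂volume =
      ∫⁻ x : Fin (N + 1) → ℂ, ∫⁻ U, ENNReal.ofReal (Real.exp (-∑ j, q l U * ‖x j‖ ^ 2))
        ∂(haarU (N + 1)) ∂volume := by
    congr 1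
    funext x
    exact inner_eq x
  have hHc : Continuous (fun p : (Fin (N + 1) → ℂ) × unitaryGroup (Fin (N + 1)) ℂ =>
      Real.exp (-∑ j, q l p.2 * ‖p.1 j‖ ^ 2)) := by
    refine Real.continuous_exp.comp (Continuous.neg (continuous_finsetSum _ fun j _ => ?_))
    exact ((q_cont l).comp continuous_snd).mul ((((continuous_apply j).comp continuous_fst).norm).pow 2)
  have h5 : ∫⁻ x : Fin (N + 1) → ℂ, ∫⁻ U, ENNReal.ofReal (Real.exp (-∑ j, q l U * ‖x j‖ ^ 2))
        ∂(haarU (N + 1)) ∂volume =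
      ∫⁻ U, ∫⁻ x : Fin (N + 1) → ℂ, ENNReal.ofReal (Real.exp (-∑ j, q l U * ‖x j‖ ^ 2)) ∂volume
        ∂(haarU (N + 1)) := by
    apply lintegral_lintegral_swap
    exact (ENNReal.measurable_ofReal.comp hHc.measurable).aemeasurable
  have h6 : ∀ U : unitaryGroup (Fin (N + 1)) ℂ,
      ∫⁻ x : Fin (N + 1) → ℂ, ENNReal.ofReal (Real.exp (-∑ j, q l U * ‖x j‖ ^ 2)) ∂volume =
        ENNReal.ofReal ((Real.pi / q l U) ^ (N + 1)) := by
    intro U
    have := gauss (N := N) (l := fun _ => q l U) (fun _ => hk0.trans_le (hq U))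
    simpa [div_pow] using this
  have h7 : ∫⁻ U, ENNReal.ofReal ((Real.pi / q l U) ^ (N + 1)) ∂(haarU (N + 1)) =
      ENNReal.ofReal (∏ j, Real.pi / l j) := by
    rw [← h2, h3, h4, h5]
    congr 1
    funext U
    exact (h6 U).symm
  have hqc : Continuous fun U : unitaryGroup (Fin (N + 1)) ℂ => Real.pi / q l U :=
    continuous_const.div (q_cont l) fun U => (hk0.trans_le (hq U)).ne'
  have hpos : ∀ U : unitaryGroup (Fin (N + 1)) ℂ, 0 ≤ (Real.pi / q l U) ^ (N + 1) := fun U =>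
    pow_nonneg (div_nonneg Real.pi_pos.le (hk0.trans_le (hq U)).le) _
  have h8 : ∫ U, (Real.pi / q l U) ^ (N + 1) ∂(haarU (N + 1)) = ∏ j, Real.pi / l j := by
    rw [integral_eq_lintegral_of_nonneg_ae (ae_of_all _ hpos)
      (hqc.pow _).aestronglyMeasurable, h7, ENNReal.toReal_ofReal]
    exact Finset.prod_nonneg fun j _ => div_nonneg Real.pi_pos.le (hl j).le
  have hpi : (Real.pi : ℝ) ≠ 0 := Real.pi_ne_zero
  have h9 : ∀ U : unitaryGroup (Fin (N + 1)) ℂ,
      (Real.pi / q l U) ^ (N + 1) = Real.pi ^ (N + 1) * (1 / q l U) ^ (N + 1) := by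
    intro U; rw [← mul_pow, mul_one_div]
  simp_rw [h9] at h8
  rw [integral_const_mul] at h8
  have h10 : ∏ j, Real.pi / l j = Real.pi ^ (N + 1) * ∏ j, 1 / l j := by
    have : ∀ j, Real.pi / l j = Real.pi * (1 / l j) := fun j => by ring
    simp_rw [this]
    rw [Finset.prod_mul_distrib, Finset.prod_const, Finset.card_univ, Fintype.card_fin]
  rw [h10] at h8
  exact mul_left_cancel₀ (pow_ne_zero _ hpi) h8

end Pool.Agent.KS6_75.SI
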