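import Mathlib
import Pool.Graph.R_seed8.Helper509.SphDefs
import Pool.Graph.R_seed8.Helper509.SphRed
import Pool.Agent.KS6_75.SI.Gauss
import Pool.Agent.KS6_75.SI.Asy

/-!
The Laplace transform of `q(U)` and the function `f_n`.
-/

set_option autoImplicit false

open MeasureTheory Filter Topology Finset

namespace Pool.Agent.KS6_75.SI

section abs

variable {Ω : Type*} [MeasurableSpace Ω] {P : Measure Ω} [IsProbabilityMeasure P] {X : Ω → ℝ}

theorem laplace_hasSum {C : ℝ} (hX : Measurable X) (hC : ∀ w, |X w| ≤ C) {g : Ω → ℝ}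
    (hg : Measurable g) {G : ℝ} (hG : ∀ w, |g w| ≤ G) (t : ℂ) :
    HasSum (fun m : ℕ => ((∫ w, g w * X w ^ m ∂P : ℝ) : ℂ) * t ^ m / (m.factorial : ℂ))
      (∫ w, (g w : ℂ) * Complex.exp (t * X w) ∂P) := by
  have hG0 : 0 ≤ G := by
    obtain ⟨w⟩ : Nonempty Ω := nonempty_of_isProbabilityMeasure P
    exact (abs_nonneg _).trans (hG w)
  have hC0 : 0 ≤ C := by
    obtain ⟨w⟩ : Nonempty Ω := nonempty_of_isProbabilityMeasure P
    exact (abs_nonneg _).trans (hC w)
  have hint : ∀ m : ℕ, Integrable (fun w => g w * X w ^ m) P := fun m =>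
    Integrable.of_bound (hg.mul (hX.pow_const m)).aestronglyMeasurable (G * C ^ m)
      (ae_of_all _ fun w => by
        rw [norm_mul, norm_pow, Real.norm_eq_abs, Real.norm_eq_abs]
        gcongr
        · exact hG w
        · exact hC w)
  have hsumm : Summable (fun m : ℕ => G * ((‖t‖ * C) ^ m / (m.factorial : ℝ))) :=
    (Real.summable_pow_div_factorial _).mul_left _
  have h2 : HasSum (fun m : ℕ => ∫ w, ((g w * X w ^ m : ℝ) : ℂ) * (t ^ m / (m.factorial : ℂ)) ∂P)
      (∫ w, ∑' m : ℕ, ((g w * X w ^ m : ℝ) : ℂ) * (t ^ m / (m.factorial : ℂ)) ∂P) := by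
    apply hasSum_integral_of_summable_integral_norm
    · intro m
      exact (hint m).ofReal.mul_const _
    · refine Summable.of_nonneg_of_le (fun m => integral_nonneg fun w => norm_nonneg _)
        (fun m => ?_) hsumm
      calc ∫ w, ‖((g w * X w ^ m : ℝ) : ℂ) * (t ^ m / (m.factorial : ℂ))‖ ∂P
          ≤ ∫ w, G * ((‖t‖ * C) ^ m / (m.factorial : ℝ)) ∂P := by
            apply integral_mono_of_nonneg (ae_of_all _ fun w => norm_nonneg _)
              (integrable_const _) (ae_of_all _ fun w => ?_)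
            simp only [norm_mul, norm_div, norm_pow, Complex.norm_real, Complex.norm_natCast,
              Complex.ofReal_mul, Complex.ofReal_pow, Real.norm_eq_abs]
            have h1 := hG w
            have h2 := hC w
            calc |g w| * |X w| ^ m * (‖t‖ ^ m / (m.factorial : ℝ))
                ≤ G * C ^ m * (‖t‖ ^ m / (m.factorial : ℝ)) := by gcongr
              _ = G * ((‖t‖ * C) ^ m / (m.factorial : ℝ)) := by rw [mul_pow]; ring
        _ = G * ((‖t‖ * C) ^ m / (m.factorial : ℝ)) := by simp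
  have h3 : ∀ w, ∑' m : ℕ, ((g w * X w ^ m : ℝ) : ℂ) * (t ^ m / (m.factorial : ℂ)) =
      (g w : ℂ) * Complex.exp (t * X w) := by
    intro w
    have h4 : HasSum (fun m : ℕ => (t * X w) ^ m / (m.factorial : ℂ)) (Complex.exp (t * X w)) := by
      rw [Complex.exp_eq_exp_ℂ]
      exact NormedSpace.expSeries_div_hasSum_exp _
    rw [← (h4.mul_left (g w : ℂ)).tsum_eq]
    congr 1
    funext m
    push_cast
    rw [mul_pow]
    ring
  simp_rw [h3] at h2
  refine h2.congr_fun ?_ |> fun h => h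
  intro m
  rw [integral_mul_const, integral_complex_ofReal]
  ring

/-- `φ` and the series `Ph` -/
theorem phi_eq {C : ℝ} (hX : Measurable X) (hC : ∀ w, |X w| ≤ C) {N : ℕ} {a : ℕ → ℝ}
    (ha : ∀ m, ((m + N).choose N : ℝ) * ∫ w, X w ^ m ∂P = a m) (t : ℂ) :
    ∫ w, Complex.exp (t * X w) ∂P = (N.factorial : ℂ) * Ph a N t := by
  have h := laplace_hasSum (P := P) hX hC (g := fun _ => (1 : ℝ)) measurable_const (G := 1)
    (fun w => by simp) t
  simp only [one_mul, Complex.ofReal_one] at h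
  rw [← h.tsum_eq, Ph, ← tsum_mul_left]
  congr 1
  funext m
  rw [← ha m]
  have h1 : (m + N).choose N * m.factorial * N.factorial = (m + N).factorial := by
    have := Nat.choose_mul_factorial_mul_factorial (n := m + N) (k := N) (by omega)
    rw [Nat.add_sub_cancel] at this
    rw [← this]; ring
  have h2 : (((m + N).choose N : ℕ) : ℂ) * (m.factorial : ℂ) * (N.factorial : ℂ) =
      ((m + N).factorial : ℂ) := by exact_mod_cast h1
  have h3 : ((m + N).factorial : ℂ) ≠ 0 := by exact_mod_cast (Nat.factorial_pos _).ne'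
  have h4 : (m.factorial : ℂ) ≠ 0 := by exact_mod_cast (Nat.factorial_pos _).ne'
  rw [div_eq_iff h4, ← mul_div_assoc, div_mul_eq_mul_div, eq_div_iff h3, ← h2]
  push_cast
  ring

theorem phi1_eq {C : ℝ} (hX : Measurable X) (hC : ∀ w, |X w| ≤ C) {K : ℕ} {a : ℕ → ℝ}
    (ha : ∀ m, ((m + (K + 1)).choose (K + 1) : ℝ) * ∫ w, X w ^ m ∂P = a m) (t : ℂ) :
    t * (∫ w, (X w : ℂ) * Complex.exp (t * X w) ∂P) +
      ((K : ℂ) + 1) * ∫ w, Complex.exp (t * X w) ∂P = ((K + 1).factorial : ℂ) * Ph a K t := by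
  have h0 := laplace_hasSum (P := P) hX hC (g := fun _ => (1 : ℝ)) measurable_const (G := 1)
    (fun w => by simp) t
  simp only [one_mul, Complex.ofReal_one] at h0
  have h1 := laplace_hasSum (P := P) hX hC (g := X) hX (G := C) hC t
  have h2 : HasSum (fun m : ℕ => (m : ℂ) * (((∫ w, X w ^ m ∂P : ℝ) : ℂ) * t ^ m / (m.factorial : ℂ)))
      (t * (∫ w, (X w : ℂ) * Complex.exp (t * X w) ∂P)) := by
    rw [← hasSum_nat_add_iff' 1]
    simp only [range_one, sum_singleton, Nat.cast_zero, zero_mul, sub_zero]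
    refine (h1.mul_left t).congr_fun ?_ |> fun h => h
    intro m
    have h4 : (m.factorial : ℂ) ≠ 0 := by exact_mod_cast (Nat.factorial_pos _).ne'
    have h5 : ((m : ℂ) + 1) ≠ 0 := by exact_mod_cast Nat.succ_ne_zero m
    have h6 : ∫ w, X w * X w ^ m ∂P = ∫ w, X w ^ (m + 1) ∂P := by
      congr 1; funext w; ring
    rw [h6, Nat.factorial_succ]
    push_cast
    field_simp
    ring
  have h3 := h2.add (h0.mul_left ((K : ℂ) + 1))
  rw [← h3.tsum_eq, Ph, ← tsum_mul_left]
  congr 1
  funext m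
  rw [← ha m]
  have h1 : (m + (K + 1)).choose (K + 1) * m.factorial * (K + 1).factorial =
      (m + K + 1) * (m + K).factorial := by
    have := Nat.choose_mul_factorial_mul_factorial (n := m + (K + 1)) (k := K + 1) (by omega)
    rw [Nat.add_sub_cancel] at this
    rw [← Nat.factorial_succ, ← add_assoc] at *
    rw [← this]; ring
  have h2 : (((m + (K + 1)).choose (K + 1) : ℕ) : ℂ) * (m.factorial : ℂ) * ((K + 1).factorial : ℂ) =
      ((m : ℂ) + K + 1) * ((m + K).factorial : ℂ) := by exact_mod_cast h1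
  have h3 : ((m + K).factorial : ℂ) ≠ 0 := by exact_mod_cast (Nat.factorial_pos _).ne'
  have h4 : (m.factorial : ℂ) ≠ 0 := by exact_mod_cast (Nat.factorial_pos _).ne'
  push_cast
  field_simp
  linear_combination (-(((∫ w, X w ^ m ∂P : ℝ) : ℂ) * t ^ m)) * h2

end abs

end Pool.Agent.KS6_75.SI
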