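import Mathlib
import Pool.Graph.R_seed8.Helper509.SphDefs
import Pool.Graph.R_seed8.Helper509.SphRed
import Pool.Agent.KS6_75.SI.Phi

/-!
The function `f_n` for diagonal matrices, and its limit in the presence of an outlier.
-/

set_option autoImplicit false

open MeasureTheory Filter Topology Finset Matrix

namespace Pool.Agent.KS6_75.SI

open Pool.Agent.Helper509.SphDefs Pool.Agent.Helper509.SphRed

/-- diagonal matrix with real entries -/
noncomputable def dm {n : ℕ} (d : Fin n → ℝ) : Matrix (Fin n) (Fin n) ℂ :=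
  Matrix.diagonal fun i => ((d i : ℝ) : ℂ)

theorem dm_herm {n : ℕ} (d : Fin n → ℝ) : (dm d).IsHermitian := by
  apply Matrix.isHermitian_diagonal_of_self_adjoint
  ext i
  simp

variable {N : ℕ}

/-- the Laplace transform of `q` -/
noncomputable def ph (d : Fin (N + 1) → ℝ) (t : ℂ) : ℂ :=
  ∫ U, Complex.exp (t * q d U) ∂(haarU (N + 1))

/-- its derivative -/
noncomputable def ph1 (d : Fin (N + 1) → ℝ) (t : ℂ) : ℂ :=
  ∫ U, (q d U : ℂ) * Complex.exp (t * q d U) ∂(haarU (N + 1))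

theorem Y_eq (d : Fin (N + 1) → ℝ) (U : unitaryGroup (Fin (N + 1)) ℂ) :
    Y (N + 1) (dm d) U = q d U := by
  have h1 : Y (N + 1) (dm d) U = ((star (U : Matrix (Fin (N + 1)) (Fin (N + 1)) ℂ) * dm d *
      (U : Matrix (Fin (N + 1)) (Fin (N + 1)) ℂ) : Matrix (Fin (N + 1)) (Fin (N + 1)) ℂ) 0 0).re := by
    unfold Y
    rw [Finset.sum_eq_single 0]
    · simp
    · intro b _ hb
      rw [if_neg]
      intro h
      exact hb (Fin.ext h)
    · intro h; exact absurd (Finset.mem_univ _) h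
  have h2 : ((star (U : Matrix (Fin (N + 1)) (Fin (N + 1)) ℂ) * dm d *
      (U : Matrix (Fin (N + 1)) (Fin (N + 1)) ℂ) : Matrix (Fin (N + 1)) (Fin (N + 1)) ℂ) 0 0) =
      ((q d U : ℝ) : ℂ) := by
    rw [mul_apply]
    unfold q dm
    push_cast
    refine Finset.sum_congr rfl fun j _ => ?_
    rw [mul_diagonal, star_apply]
    have := Complex.conj_mul' ((U : Matrix (Fin (N + 1)) (Fin (N + 1)) ℂ) j 0)
    calc star ((U : Matrix (Fin (N + 1)) (Fin (N + 1)) ℂ) j 0) * (d j : ℂ) *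
          (U : Matrix (Fin (N + 1)) (Fin (N + 1)) ℂ) j 0
        = (d j : ℂ) * (star ((U : Matrix (Fin (N + 1)) (Fin (N + 1)) ℂ) j 0) *
          (U : Matrix (Fin (N + 1)) (Fin (N + 1)) ℂ) j 0) := by ring
      _ = _ := by rw [← this]; rfl
  rw [h1, h2, Complex.ofReal_re]

theorem sphInt_dm (d : Fin (N + 1) → ℝ) (z : ℂ) :
    sphInt (N + 1) (dm d) z = ph d (((N : ℂ) + 1) * z) := by
  unfold sphInt ph
  congr 1
  funext U
  rw [trace_eq (dm_herm d), Y_eq]
  push_cast
  ring_nf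

theorem ph_hasDerivAt (d : Fin (N + 1) → ℝ) (t : ℂ) : HasDerivAt (ph d) (ph1 d t) t := by
  obtain ⟨B, hB⟩ : ∃ B : ℝ, ∀ j, |d j| ≤ B := by
    obtain ⟨j0, -, hj0⟩ := Finset.exists_max_image Finset.univ (fun j => |d j|) ⟨0, Finset.mem_univ _⟩
    exact ⟨|d j0|, fun j => hj0 j (Finset.mem_univ j)⟩
  have hm : Measurable (q d) := (q_cont d).measurable
  have h1 : ProbabilityTheory.integrableExpSet (q d) (haarU (N + 1)) = Set.univ := by
    ext s
    simp only [ProbabilityTheory.integrableExpSet, Set.mem_ofPred_eq, Set.mem_univ, iff_true]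
    apply Integrable.of_bound (C := Real.exp (|s| * B))
    · exact (Real.continuous_exp.comp ((q_cont d).const_mul s)).aestronglyMeasurable
    · refine ae_of_all _ fun U => ?_
      rw [Real.norm_of_nonneg (Real.exp_pos _).le]
      apply Real.exp_le_exp.2
      calc s * q d U ≤ |s * q d U| := le_abs_self _
        _ = |s| * |q d U| := abs_mul _ _
        _ ≤ |s| * B := mul_le_mul_of_nonneg_left (q_le hB U) (abs_nonneg _)
  have := ProbabilityTheory.hasDerivAt_complexMGF (X := q d) (μ := haarU (N + 1)) (z := t)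
    (by rw [h1, interior_univ]; trivial)
  exact this

theorem fn_dm (d : Fin (N + 1) → ℝ) (z : ℂ) :
    fn (N + 1) (dm d) z = ph1 d (((N : ℂ) + 1) * z) / ph d (((N : ℂ) + 1) * z) := by
  have h1 : sphInt (N + 1) (dm d) = fun z => ph d (((N : ℂ) + 1) * z) := by
    funext z
    exact sphInt_dm d z
  have h2 : HasDerivAt (fun z => ph d (((N : ℂ) + 1) * z))
      (ph1 d (((N : ℂ) + 1) * z) * (((N : ℂ) + 1) * 1)) z :=
    (ph_hasDerivAt d _).comp z ((hasDerivAt_id z).const_mul _)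
  unfold fn
  rw [h1, h2.deriv]
  have hN : ((N : ℂ) + 1) ≠ 0 := by exact_mod_cast Nat.succ_ne_zero N
  push_cast
  by_cases h3 : ph d (((N : ℂ) + 1) * z) = 0
  · simp [h3]
  · field_simp

theorem q_moments (d : Fin (N + 1) → ℝ) {C : ℝ} (hC0 : 0 < C) (hd : ∀ j, |d j| ≤ C) (m : ℕ) :
    ((m + N).choose N : ℝ) * ∫ U, q d U ^ m ∂(haarU (N + 1)) = hs (List.ofFn d) m := by
  refine moments hC0 (q_cont d).measurable (fun U => q_le hd U) d hd (fun s hs => ?_) m
  have hl : ∀ j, 0 < 1 - s * d j := by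
    intro j
    have h1 : |s * d j| < 1 := by
      rw [abs_mul]
      exact (mul_le_mul_of_nonneg_left (hd j) (abs_nonneg _)).trans_lt hs
    rw [abs_lt] at h1
    linarith
  have hb := basic hl
  have h2 : ∀ U : unitaryGroup (Fin (N + 1)) ℂ, q (fun j => 1 - s * d j) U = 1 - s * q d U := by
    intro U
    unfold q
    calc ∑ j, (1 - s * d j) * ‖U.1 j 0‖ ^ 2 =
        ∑ j, ‖U.1 j 0‖ ^ 2 - s * ∑ j, d j * ‖U.1 j 0‖ ^ 2 := by
          rw [Finset.mul_sum, ← Finset.sum_sub_distrib]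
          exact Finset.sum_congr rfl fun j _ => by ring
      _ = _ := by rw [col_sum U]
  simp_rw [h2] at hb
  exact hb

/-- the exact formula for `f_n` -/
theorem fn_formula {K : ℕ} (d : Fin (K + 2) → ℝ) {z : ℂ} (hz : z ≠ 0)
    (h0 : Ph (hs (List.ofFn d)) (K + 1) (((K : ℂ) + 2) * z) ≠ 0) :
    fn (K + 2) (dm d) z =
      Ph (hs (List.ofFn d)) K (((K : ℂ) + 2) * z) /
        ((((K : ℂ) + 2) * z) * Ph (hs (List.ofFn d)) (K + 1) (((K : ℂ) + 2) * z)) -
      ((K : ℂ) + 1) / (((K : ℂ) + 2) * z) := by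
  obtain ⟨B, hB⟩ : ∃ B : ℝ, ∀ j, |d j| ≤ B := by
    obtain ⟨j0, -, hj0⟩ := Finset.exists_max_image Finset.univ (fun j => |d j|) ⟨0, Finset.mem_univ _⟩
    exact ⟨|d j0|, fun j => hj0 j (Finset.mem_univ j)⟩
  have hB' : ∀ j, |d j| ≤ max B 1 := fun j => (hB j).trans (le_max_left _ _)
  have hm := q_moments d (lt_of_lt_of_le one_pos (le_max_right B 1)) hB'
  have e : (((K + 1 : ℕ) : ℂ) + 1) = (K : ℂ) + 2 := by push_cast; ring
  have h1 := fn_dm d z
  rw [e] at h1
  set t : ℂ := ((K : ℂ) + 2) * z with ht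
  have hK2 : ((K : ℂ) + 2) ≠ 0 := by exact_mod_cast (by omega : K + 2 ≠ 0)
  have ht0 : t ≠ 0 := mul_ne_zero hK2 hz
  have h2 : ph d t = ((K + 1).factorial : ℂ) * Ph (hs (List.ofFn d)) (K + 1) t :=
    phi_eq (q_cont d).measurable (fun U => q_le hB' U) hm t
  have h3 : t * ph1 d t + ((K : ℂ) + 1) * ph d t =
      ((K + 1).factorial : ℂ) * Ph (hs (List.ofFn d)) K t :=
    phi1_eq (q_cont d).measurable (fun U => q_le hB' U) hm t
  have hf : ((K + 1).factorial : ℂ) ≠ 0 := by exact_mod_cast (Nat.factorial_pos _).ne'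
  have h4 : ph d t ≠ 0 := by rw [h2]; exact mul_ne_zero hf h0
  have h5 : ph1 d t = (((K + 1).factorial : ℂ) * Ph (hs (List.ofFn d)) K t -
      ((K : ℂ) + 1) * ph d t) / t := by
    rw [← h3]; field_simp; ring
  have h6 : fn (K + 2) (dm d) z = ph1 d t / ph d t := h1
  rw [h6, h5, h2]
  field_simp

end Pool.Agent.KS6_75.SI
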