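import Mathlib
import Pool.Agent.KS6_75.SI.Fn
import Pool.Agent.KS6_75.SI.Extrap

/-!
On the imaginary axis `f_n(i y)` cannot be close to `i y` on a long interval.
-/

set_option autoImplicit false

open MeasureTheory Filter Topology Finset Matrix

namespace Pool.Agent.KS6_75.SI

open Pool.Agent.Helper509.SphDefs Pool.Agent.Helper509.SphRed

variable {N : ℕ}

theorem ph_imag_le (d : Fin (N + 1) → ℝ) {t : ℂ} (ht : t.re = 0) : ‖ph d t‖ ≤ 1 := by
  unfold ph
  have := norm_integral_le_of_norm_le_const (μ := haarU (N + 1))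
    (f := fun U => Complex.exp (t * q d U)) (C := 1) (ae_of_all _ fun U => by
      rw [Complex.norm_exp]
      simp [ht])
  simpa using this

theorem exists_bad {B : ℕ} (hB : 1 ≤ B) (d : Fin (N + 1) → ℝ) (hd : ∀ j, |d j| ≤ B) :
    ∃ y ∈ Set.Icc (250 * B : ℝ) (1000 * B),
      1 ≤ ‖fn (N + 1) (dm d) (Complex.I * y) - Complex.I * y‖ := by
  by_contra hcon
  push Not at hcon
  have hB1 : (1 : ℝ) ≤ B := by exact_mod_cast hB
  have hn1 : (1 : ℝ) ≤ (N : ℝ) + 1 := by
    have : (0 : ℝ) ≤ N := Nat.cast_nonneg N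
    linarith
  set n : ℝ := (N : ℝ) + 1 with hn
  set F : ℝ → ℂ := fun y => ph d (((N : ℂ) + 1) * (Complex.I * y)) with hF
  set F1 : ℝ → ℂ := fun y => ph1 d (((N : ℂ) + 1) * (Complex.I * y)) with hF1
  have hFle : ∀ y : ℝ, ‖F y‖ ≤ 1 := by
    intro y
    apply ph_imag_le
    have : ((N : ℂ) + 1) * (Complex.I * y) = ((((N : ℝ) + 1) * y : ℝ) : ℂ) * Complex.I := by
      push_cast; ring
    rw [this]
    simp
  have hFd : ∀ y : ℝ, HasDerivAt F (F1 y * (((N : ℂ) + 1) * Complex.I)) y := by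
    intro y
    have h1 : HasDerivAt (fun y : ℝ => ((N : ℂ) + 1) * (Complex.I * (y : ℂ)))
        (((N : ℂ) + 1) * (Complex.I * 1)) y :=
      (Complex.ofRealCLM.hasDerivAt.const_mul Complex.I).const_mul ((N : ℂ) + 1)
    have h2 := (ph_hasDerivAt d (((N : ℂ) + 1) * (Complex.I * y))).comp_of_eq (y : ℝ) h1 rfl
    exact h2.congr_deriv (by rw [hF1, mul_one])
  have hfn : ∀ y : ℝ, fn (N + 1) (dm d) (Complex.I * y) = F1 y / F y := fun y => fn_dm d _
  set κ : ℝ := 250 * B - 1 with hκ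
  have hκ0 : 249 * B ≤ κ := by rw [hκ]; linarith
  -- the derivative of the square of the norm
  have hder : ∀ y ∈ Set.Icc (250 * B : ℝ) (1000 * B), ∃ g : ℝ,
      HasDerivAt (fun y => ‖F y‖ ^ 2) g y ∧ g ≤ -(2 * n * κ) * ‖F y‖ ^ 2 := by
    intro y hy
    have h1 := hcon y hy
    have hFy : F y ≠ 0 := by
      intro h
      rw [hfn, h, div_zero, zero_sub, norm_neg, norm_mul, Complex.norm_I, one_mul,
        Complex.norm_real] at h1
      have : (1 : ℝ) ≤ ‖y‖ := by
        rw [Real.norm_eq_abs]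
        exact le_trans (by linarith [hy.1]) (le_abs_self y)
      linarith
    refine ⟨_, (hFd y).norm_sq, ?_⟩
    set f : ℂ := fn (N + 1) (dm d) (Complex.I * y) with hf
    have h2 : F1 y = f * F y := by rw [hf, hfn]; field_simp
    have h3 : κ ≤ f.im := by
      have h4 : |(f - Complex.I * y).im| ≤ ‖f - Complex.I * y‖ := Complex.abs_im_le_norm _
      have h5 : (f - Complex.I * y).im = f.im - y := by simp
      rw [h5] at h4
      have h6 := (abs_lt.1 (h4.trans_lt h1)).1
      rw [hκ]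
      linarith [hy.1]
    have h7 : inner ℝ (F y) (F1 y * (((N : ℂ) + 1) * Complex.I)) = -(n * f.im) * ‖F y‖ ^ 2 := by
      rw [Complex.inner, h2]
      have h8 : f * F y * (((N : ℂ) + 1) * Complex.I) * (starRingEnd ℂ) (F y) =
          ((‖F y‖ ^ 2 * n : ℝ) : ℂ) * (f * Complex.I) := by
        have := Complex.conj_mul' (F y)
        rw [hn]
        push_cast
        rw [← this]
        ring
      rw [h8, Complex.re_ofReal_mul]
      simp
      ring
    rw [h7]
    have h9 : 0 ≤ ‖F y‖ ^ 2 := sq_nonneg _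
    have h10 : n * κ * ‖F y‖ ^ 2 ≤ n * f.im * ‖F y‖ ^ 2 := by gcongr
    linarith
  -- monotonicity
  have hanti : AntitoneOn (fun y : ℝ => ‖F y‖ ^ 2 * Real.exp (2 * n * κ * y))
      (Set.Icc (250 * B : ℝ) (1000 * B)) := by
    have hd' : ∀ y ∈ Set.Icc (250 * B : ℝ) (1000 * B), ∃ g : ℝ,
        HasDerivAt (fun y : ℝ => ‖F y‖ ^ 2 * Real.exp (2 * n * κ * y)) g y ∧ g ≤ 0 := by
      intro y hy
      obtain ⟨g, hg1, hg2⟩ := hder y hy
      have he : HasDerivAt (fun y : ℝ => Real.exp (2 * n * κ * y))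
          (Real.exp (2 * n * κ * y) * (2 * n * κ * 1)) y :=
        ((hasDerivAt_id y).const_mul (2 * n * κ)).exp
      refine ⟨_, hg1.mul he, ?_⟩
      have hpos : 0 < Real.exp (2 * n * κ * y) := Real.exp_pos _
      nlinarith
    apply antitoneOn_of_deriv_nonpos (convex_Icc _ _)
    · intro y hy
      obtain ⟨g, hg, -⟩ := hd' y hy
      exact hg.continuousAt.continuousWithinAt
    · intro y hy
      obtain ⟨g, hg, -⟩ := hd' y (interior_subset hy)
      exact hg.differentiableAt.differentiableWithinAt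
    · intro y hy
      obtain ⟨g, hg, h⟩ := hd' y (interior_subset hy)
      rw [hg.deriv]
      exact h
  have hsmall : ∀ y ∈ Set.Icc (500 * B : ℝ) (1000 * B), ‖F y‖ ≤ Real.exp (-(n * κ * (250 * B))) := by
    intro y hy
    have h1 := hanti (a := 250 * B) (b := y) ⟨le_rfl, by linarith⟩ ⟨by linarith [hy.1], hy.2⟩
      (by linarith [hy.1])
    simp only at h1
    have h2 : ‖F (250 * B)‖ ^ 2 ≤ 1 := pow_le_one₀ (norm_nonneg _) (hFle _)
    have h3 : ‖F y‖ ^ 2 * Real.exp (2 * n * κ * y) ≤ Real.exp (2 * n * κ * (250 * B)) := by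
      refine h1.trans ?_
      have hpos : 0 < Real.exp (2 * n * κ * (250 * B)) := Real.exp_pos _
      nlinarith
    have h4 : ‖F y‖ ^ 2 ≤ Real.exp (-(n * κ * (250 * B))) ^ 2 := by
      rw [← Real.exp_nat_mul]
      have h5 : ‖F y‖ ^ 2 ≤ Real.exp (2 * n * κ * (250 * B)) / Real.exp (2 * n * κ * y) := by
        rw [le_div_iff₀ (Real.exp_pos _)]
        exact h3
      refine h5.trans ?_
      rw [← Real.exp_sub]
      apply Real.exp_le_exp.2
      have h6 : 0 ≤ n * κ := by
        apply mul_nonneg <;> linarith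
      have h7 : n * κ * (500 * B) ≤ n * κ * y := mul_le_mul_of_nonneg_left hy.1 h6
      push_cast
      linarith
    exact le_of_sq_le_sq h4 (Real.exp_pos _).le |> fun h => h
  -- the extrapolation
  obtain ⟨M, hM⟩ : ∃ M : ℕ, M + 1 = 8000 * B ^ 2 * (N + 1) :=
    ⟨8000 * B ^ 2 * (N + 1) - 1, Nat.sub_add_cancel
      (Nat.mul_pos (Nat.mul_pos (by norm_num) (pow_pos (by omega) 2)) (Nat.succ_pos N))⟩
  have hMr : (M : ℝ) + 1 = 8000 * B ^ 2 * n := by
    rw [hn]; exact_mod_cast hM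
  have hB0 : (0 : ℝ) < B := by linarith
  have hn0 : (0 : ℝ) < n := by linarith
  set Z : unitaryGroup (Fin (N + 1)) ℂ → ℂ := fun U =>
    Complex.exp (Complex.I * ((q d U / (16 * B) : ℝ) : ℂ)) with hZ
  have hZm : Measurable Z := by
    apply Continuous.measurable
    apply Complex.continuous_exp.comp
    apply Continuous.mul continuous_const
    apply Complex.continuous_ofReal.comp
    exact (q_cont d).div_const _
  have hZ1 : ∀ U, ‖Z U‖ = 1 := by
    intro U
    rw [hZ]
    simp only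
    rw [mul_comm]
    exact Complex.norm_exp_ofReal_mul_I _
  have hZ2 : ∀ U, ‖1 - Z U‖ ≤ 1 / 16 := by
    intro U
    rw [norm_sub_rev]
    have h1 := Real.norm_exp_I_mul_ofReal_sub_one_le (x := q d U / (16 * B))
    refine h1.trans ?_
    rw [norm_div, Real.norm_of_nonneg (by positivity : (0 : ℝ) ≤ 16 * B), div_le_iff₀ (by positivity)]
    have := q_le hd U
    rw [Real.norm_eq_abs]
    linarith
  have hZF : ∀ j : ℕ, ∫ U, Z U ^ j ∂(haarU (N + 1)) = F ((j : ℝ) * (1 / (16 * n * B))) := by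
    intro j
    rw [hF]
    simp only
    unfold ph
    congr 1
    funext U
    rw [hZ]
    simp only
    rw [← Complex.exp_nat_mul]
    congr 1
    have h1 : ((N : ℂ) + 1) ≠ 0 := by exact_mod_cast Nat.succ_ne_zero N
    have h2 : (B : ℂ) ≠ 0 := by exact_mod_cast hB0.ne'
    rw [hn]
    push_cast
    field_simp
  have hm : ∀ i ≤ M, ‖∫ U, Z U ^ (M + 1 + i) ∂(haarU (N + 1))‖ ≤ Real.exp (-(n * κ * (250 * B))) := by
    intro i hi
    rw [hZF]
    apply hsmall
    have hi' : (i : ℝ) ≤ M := by exact_mod_cast hi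
    have hi0 : (0 : ℝ) ≤ i := Nat.cast_nonneg i
    push_cast
    constructor
    · rw [mul_one_div, le_div_iff₀ (by positivity)]
      nlinarith
    · rw [mul_one_div, div_le_iff₀ (by positivity)]
      nlinarith
  have hfin := extrap hZm hZ1 hZ2 hm
  have h8 : (8 : ℝ) ^ (M + 1) ≤ Real.exp (17 * (1000 * B ^ 2 * n)) := by
    have h9 : (8 : ℝ) = Real.exp (3 * Real.log 2) := by
      rw [show (3 : ℝ) * Real.log 2 = ((3 : ℕ) : ℝ) * Real.log 2 by norm_num, Real.exp_nat_mul,
        Real.exp_log (by norm_num)]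
      norm_num
    rw [h9, ← Real.exp_nat_mul]
    apply Real.exp_le_exp.2
    push_cast
    rw [hMr]
    have := Real.log_two_lt_d9
    have h10 : 0 ≤ (B : ℝ) ^ 2 * n := by positivity
    nlinarith
  have h9 : (8 : ℝ) ^ (M + 1) * Real.exp (-(n * κ * (250 * B))) ≤ Real.exp (-1) := by
    calc (8 : ℝ) ^ (M + 1) * Real.exp (-(n * κ * (250 * B)))
        ≤ Real.exp (17 * (1000 * B ^ 2 * n)) * Real.exp (-(n * κ * (250 * B))) := by gcongr
      _ = Real.exp (17 * (1000 * B ^ 2 * n) - n * κ * (250 * B)) := by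
          rw [← Real.exp_add]; rfl
      _ ≤ Real.exp (-1) := by
          apply Real.exp_le_exp.2
          have h11 : n * (249 * B) * (250 * B) ≤ n * κ * (250 * B) := by gcongr
          have h12 : 1 ≤ (B : ℝ) ^ 2 * n := by nlinarith
          nlinarith
  have h10 : Real.exp (-1) < 1 / 2 := by
    have := Real.exp_one_gt_d9
    rw [Real.exp_neg, inv_lt_comm₀ (Real.exp_pos _) (by norm_num)]
    norm_num
    linarith
  have h11 : (1 / 4 : ℝ) ^ (M + 1) ≤ 1 / 4 := by
    rw [pow_succ]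
    have : (1 / 4 : ℝ) ^ M ≤ 1 := pow_le_one₀ (by norm_num) (by norm_num)
    linarith
  linarith

end Pool.Agent.KS6_75.SI
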