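import Mathlib
import Pool.Agent.KS6_75.SI.Fn

/-!
The limit of `f_n(z)` in the presence of a large outlier.
-/

set_option autoImplicit false

open MeasureTheory Filter Topology Finset Matrix

namespace Pool.Agent.KS6_75.SI

open Pool.Agent.Helper509.SphDefs Pool.Agent.Helper509.SphRed

/-- the three conditions on the size of the outlier -/
structure Big (B : ℝ) (z : ℂ) (c : ℝ) : Prop where
  four : 4 * B ≤ c
  one : 2 * ‖z‖ / z.re * Real.exp (-(c * z.re / 2)) < 1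
  two : 5 * c / (4 * B) * Real.exp (2 * B * ‖z‖ - c * z.re) < 1

theorem big_eventually {B : ℝ} (z : ℂ) (hz : 0 < z.re) : ∀ᶠ c : ℝ in atTop, Big B z c := by
  have h1 : Tendsto (fun c : ℝ => 2 * ‖z‖ / z.re * Real.exp (-(c * z.re / 2))) atTop (𝓝 0) := by
    have h2 : Tendsto (fun c : ℝ => c * z.re / 2) atTop atTop := by
      have : (fun c : ℝ => c * z.re / 2) = fun c => c * (z.re / 2) := by funext c; ring
      rw [this]
      exact tendsto_id.atTop_mul_const (by positivity)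
    have h3 := (Real.tendsto_exp_neg_atTop_nhds_zero.comp h2).const_mul (2 * ‖z‖ / z.re)
    rw [mul_zero] at h3
    exact h3
  have h4 : Tendsto (fun c : ℝ => 5 * c / (4 * B) * Real.exp (2 * B * ‖z‖ - c * z.re)) atTop (𝓝 0) := by
    have h2 : Tendsto (fun c : ℝ => z.re * c) atTop atTop := tendsto_id.const_mul_atTop hz
    have h3 := (Real.tendsto_pow_mul_exp_neg_atTop_nhds_zero 1).comp h2
    have h5 := h3.const_mul (5 / (4 * B) / z.re * Real.exp (2 * B * ‖z‖))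
    rw [mul_zero] at h5
    refine h5.congr fun c => ?_
    simp only [Function.comp_apply, pow_one]
    rw [sub_eq_add_neg, Real.exp_add]
    have : z.re ≠ 0 := hz.ne'
    field_simp
  filter_upwards [eventually_ge_atTop (4 * B), h1.eventually (gt_mem_nhds zero_lt_one),
    h4.eventually (gt_mem_nhds zero_lt_one)] with c hc1 hc2 hc3
  exact ⟨hc1, hc2, hc3⟩

theorem out_tendsto {B c : ℝ} {z : ℂ} (hB0 : 0 < B) (hz : 0 < z.re) (hc : Big B z c)
    {d : ∀ K : ℕ, Fin (K + 2) → ℝ} (hd0 : ∀ K, d K 0 = c)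
    (hd : ∀ K (j : Fin (K + 1)), |d K j.succ| ≤ B) :
    Tendsto (fun K : ℕ => fn (K + 2) (dm (d K)) z) atTop (𝓝 (c - 1 / z)) := by
  have hc0 : 0 < c := by have := hc.four; linarith
  have hz0 : z ≠ 0 := by
    rintro rfl
    simp at hz
  have hzn : 0 < ‖z‖ := norm_pos_iff.2 hz0
  set κ : ℝ := z.re / (2 * ‖z‖) with hκ
  have hκ0 : 0 < κ := by positivity
  have hκ1 : κ ≤ 1 := by
    rw [hκ, div_le_one (by positivity)]
    have := Complex.re_le_norm z
    linarith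
  set r1 : ℝ := 2 * ‖z‖ / z.re * Real.exp (-(c * z.re / 2)) with hr1
  set r2 : ℝ := 5 * c / (4 * B) * Real.exp (2 * B * ‖z‖ - c * z.re) with hr2
  have hr10 : 0 ≤ r1 := by positivity
  have hr20 : 0 ≤ r2 := by positivity
  choose A hA0 hA using fun K : ℕ => main_term (N := K + 1) (d := d K) hB0 hc.four (hd0 K) (hd K) hκ0 hκ1
  let E : ℕ → ℕ → ℂ := fun j K => (c : ℂ) ^ (K + j) * (((K : ℂ) + 2) * z) ^ (K + j) *
    Ph (hs (List.ofFn (d K))) (K + j) (((K : ℂ) + 2) * z) *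
      Complex.exp (-(c * (((K : ℂ) + 2) * z))) / A K
  have hE : ∀ j ≤ 1, Tendsto (E j) atTop (𝓝 1) := by
    intro j hj
    have h1 : ∀ K, ‖E j K - 1‖ ≤ r1 ^ (K + 2) + r2 ^ (K + 2) := by
      intro K
      refine (hA K (K + j) (by omega) (((K : ℂ) + 2) * z)).trans (le_of_eq ?_)
      have hn : ‖((K : ℂ) + 2) * z‖ = ((K : ℝ) + 2) * ‖z‖ := by
        rw [norm_mul]
        congr 1
        have : ((K : ℂ) + 2) = (((K : ℝ) + 2 : ℝ) : ℂ) := by push_cast; ring
        rw [this, Complex.norm_real, Real.norm_of_nonneg (by positivity)]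
      have hre : (((K : ℂ) + 2) * z).re = ((K : ℝ) + 2) * z.re := by
        have : ((K : ℂ) + 2) = (((K : ℝ) + 2 : ℝ) : ℂ) := by push_cast; ring
        rw [this, Complex.re_ofReal_mul]
      rw [hn, hre]
      have e1 : κ⁻¹ = 2 * ‖z‖ / z.re := by rw [hκ, inv_div]
      have e2 : κ * c * (((K : ℝ) + 2) * ‖z‖) - c * (((K : ℝ) + 2) * z.re) =
          ((K + 2 : ℕ) : ℝ) * (-(c * z.re / 2)) := by
        rw [hκ]; push_cast; field_simp; ring
      have e3 : 2 * B * (((K : ℝ) + 2) * ‖z‖) - c * (((K : ℝ) + 2) * z.re) =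
          ((K + 2 : ℕ) : ℝ) * (2 * B * ‖z‖ - c * z.re) := by push_cast; ring
      rw [e1, e2, e3, Real.exp_nat_mul, Real.exp_nat_mul, ← mul_pow, ← mul_pow]
    have h2 : Tendsto (fun K : ℕ => r1 ^ (K + 2) + r2 ^ (K + 2)) atTop (𝓝 0) := by
      have := ((tendsto_pow_atTop_nhds_zero_of_lt_one hr10 hc.one).comp (tendsto_add_atTop_nat 2)).add
        ((tendsto_pow_atTop_nhds_zero_of_lt_one hr20 hc.two).comp (tendsto_add_atTop_nat 2))
      rw [add_zero] at this
      exact this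
    have h3 : Tendsto (fun K => ‖E j K - 1‖) atTop (𝓝 0) :=
      squeeze_zero (fun K => norm_nonneg _) h1 h2
    rw [tendsto_iff_norm_sub_tendsto_zero]
    exact h3
  have hE0 := hE 0 (by norm_num)
  have hE1 := hE 1 le_rfl
  have h1 : ∀ᶠ K in atTop, E 1 K ≠ 0 := hE1.eventually_ne one_ne_zero
  have hlim : Tendsto (fun K : ℕ => (c : ℂ) * (E 0 K / E 1 K) - (((K : ℂ) + 1) / ((K : ℂ) + 2)) * (1 / z))
      atTop (𝓝 ((c : ℂ) * (1 / 1) - 1 * (1 / z))) := by
    refine ((hE0.div hE1 one_ne_zero).const_mul _).sub (Tendsto.mul_const _ ?_)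
    have h5 : Tendsto (fun K : ℕ => (1 : ℂ) - 1 / ((K : ℂ) + 2)) atTop (𝓝 (1 - 0)) := by
      refine tendsto_const_nhds.sub ?_
      have h6 : Tendsto (fun K : ℕ => (1 : ℂ) / (((K + 1 : ℕ) : ℂ) + 1)) atTop (𝓝 0) :=
        (tendsto_one_div_add_atTop_nhds_zero_nat (𝕜 := ℂ)).comp (tendsto_add_atTop_nat 1)
      refine h6.congr fun K => ?_
      push_cast
      ring
    rw [sub_zero] at h5
    refine h5.congr fun K => ?_
    have : ((K : ℂ) + 2) ≠ 0 := by exact_mod_cast (by omega : K + 2 ≠ 0)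
    field_simp
    ring
  have e : (c : ℂ) * (1 / 1) - 1 * (1 / z) = c - 1 / z := by ring
  rw [e] at hlim
  refine hlim.congr' ?_
  filter_upwards [h1] with K hK
  have hK2 : ((K : ℂ) + 2) ≠ 0 := by exact_mod_cast (by omega : K + 2 ≠ 0)
  have hPh : Ph (hs (List.ofFn (d K))) (K + 1) (((K : ℂ) + 2) * z) ≠ 0 := by
    intro h
    apply hK
    simp only [E]
    rw [h]
    simp
  rw [fn_formula (d K) hz0 hPh]
  have hcc : (c : ℂ) ≠ 0 := by exact_mod_cast hc0.ne'
  have hAc : (A K : ℂ) ≠ 0 := by exact_mod_cast (hA0 K).ne'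
  have hex : Complex.exp (-((c : ℂ) * (((K : ℂ) + 2) * z))) ≠ 0 := Complex.exp_ne_zero _
  have ht : ((K : ℂ) + 2) * z ≠ 0 := mul_ne_zero hK2 hz0
  simp only [E, add_zero]
  rw [pow_succ, pow_succ]
  generalize Ph (hs (List.ofFn (d K))) (K + 1) (((K : ℂ) + 2) * z) = P1 at hPh
  generalize Ph (hs (List.ofFn (d K))) K (((K : ℂ) + 2) * z) = P0
  generalize Complex.exp (-((c : ℂ) * (((K : ℂ) + 2) * z))) = X0 at hex
  have hp1 : (c : ℂ) ^ K ≠ 0 := pow_ne_zero _ hcc
  have hp2 : (((K : ℂ) + 2) * z) ^ K ≠ 0 := pow_ne_zero _ ht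
  generalize (c : ℂ) ^ K = C1 at hp1
  generalize (((K : ℂ) + 2) * z) ^ K = C2 at hp2
  field_simp

end Pool.Agent.KS6_75.SI
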