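import Mathlib
import Pool.Graph.R_seed8.Helper509.SphDefs
import Pool.Graph.R_seed8.Helper509.Emp
import Pool.Graph.R_seed8.Y381.Sph.Adm
import Pool.Agent.KS6_75.SI.Out
import Pool.Agent.KS6_75.SI.Imag

/-!
Dilations, reflections and admissible sequences of diagonal matrices.
-/

set_option autoImplicit false

open MeasureTheory Filter Topology Finset Matrix

namespace Pool.Agent.KS6_75.SI

open Pool.Agent.Helper509.SphDefs Pool.Agent.Helper509.SphRed Pool.Agent.Helper509.Emp
  Pool.Agent.Y381.Sph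

theorem adm_of_avg {d : ∀ n : ℕ, Fin n → ℝ} {μ : Measure ℝ} {C : ℝ} (hb : ∀ n i, |d n i| ≤ C)
    (hav : ∀ φ : ℝ → ℝ, Continuous φ →
      Tendsto (fun n : ℕ => (∑ i, φ (d n i)) / (n : ℝ)) atTop (𝓝 (∫ x, φ x ∂μ))) :
    Admissible (fun n => dm (d n)) μ := by
  refine ⟨fun n => dm_herm (d n), ⟨C, fun n i => ?_⟩, fun φ => ?_⟩
  · exact eigenvalues_diagonal_mem (d n) (dm_herm (d n)) C (hb n) i
  · refine (hav φ φ.continuous).congr fun n => ?_
    congr 1
    exact (sum_eigenvalues_diagonal (d n) (dm_herm (d n)) (fun x => φ x)).symm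

/-- one outlier does not change the limit -/
theorem adm_outlier {μ : Measure ℝ} [IsProbabilityMeasure μ] {C : ℝ}
    (hμ : μ (Set.Icc (-C) C)ᶜ = 0) {ω : ℕ → ℝ} (h1 : ∀ i, ω i ∈ Set.Icc (-C) C)
    (h2 : ∀ k : ℕ, Tendsto (fun n : ℕ => (∑ i ∈ Finset.range n, ω i ^ k) / (n : ℝ)) atTop
      (𝓝 (∫ x, x ^ k ∂μ))) (c : ℝ) :
    Admissible (fun n => dm (fun i : Fin n => if (i : ℕ) = 0 then c else ω i)) μ := by
  apply adm_of_avg (C := max |c| C)
  · intro n i
    split_ifs with h
    · exact le_max_left _ _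
    · exact (abs_le.2 (h1 i)).trans (le_max_right _ _)
  · intro φ hφ
    have h3 := tendsto_avg hμ h1 h2 hφ
    have h4 : Tendsto (fun n : ℕ => (φ c - φ (ω 0)) / (n : ℝ)) atTop (𝓝 0) :=
      tendsto_const_div_atTop_nhds_zero_nat _
    have h5 := h3.add h4
    rw [add_zero] at h5
    refine h5.congr' ?_
    filter_upwards [eventually_ge_atTop 1] with n hn
    obtain ⟨m, rfl⟩ : ∃ m, n = m + 1 := ⟨n - 1, by omega⟩
    rw [← add_div]
    congr 1
    rw [Finset.sum_range, Fin.sum_univ_succ, Fin.sum_univ_succ]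
    simp
    ring

theorem ph_neg {N : ℕ} (d : Fin (N + 1) → ℝ) (t : ℂ) : ph (fun i => -d i) t = ph d (-t) ∧
    ph1 (fun i => -d i) t = -ph1 d (-t) := by
  have h : ∀ U, q (fun i => -d i) U = -q d U := by
    intro U
    unfold q
    rw [← Finset.sum_neg_distrib]
    exact Finset.sum_congr rfl fun j _ => by ring
  constructor
  · unfold ph
    congr 1
    funext U
    rw [h]
    push_cast
    ring_nf
  · unfold ph1
    rw [← integral_neg]
    congr 1
    funext U
    rw [h]
    push_cast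
    ring_nf

theorem fn_neg {N : ℕ} (d : Fin (N + 1) → ℝ) (z : ℂ) :
    fn (N + 1) (dm d) z = -fn (N + 1) (dm fun i => -d i) (-z) := by
  rw [fn_dm, fn_dm, (ph_neg d _).1, (ph_neg d _).2]
  have : -(((N : ℂ) + 1) * -z) = ((N : ℂ) + 1) * z := by ring
  rw [this, neg_div, neg_neg]

theorem fn_smul {N : ℕ} (d : Fin (N + 1) → ℝ) (s : ℝ) (z : ℂ) :
    fn (N + 1) (dm fun i => s * d i) z = s * fn (N + 1) (dm d) (s * z) := by
  have h : ∀ U, q (fun i => s * d i) U = s * q d U := by
    intro U
    unfold q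
    rw [Finset.mul_sum]
    exact Finset.sum_congr rfl fun j _ => by ring
  rw [fn_dm, fn_dm]
  have h1 : ph (fun i => s * d i) (((N : ℂ) + 1) * z) = ph d (((N : ℂ) + 1) * (s * z)) := by
    unfold ph
    congr 1
    funext U
    rw [h]
    push_cast
    ring_nf
  have h2 : ph1 (fun i => s * d i) (((N : ℂ) + 1) * z) = s * ph1 d (((N : ℂ) + 1) * (s * z)) := by
    unfold ph1
    rw [← integral_const_mul]
    congr 1
    funext U
    rw [h]
    push_cast
    ring_nf
  rw [h1, h2, mul_div_assoc]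

/-! ### Dilations of laws -/

theorem cm_meas (c : ℝ) : Measurable (fun x : ℝ => c * x) := measurable_const_mul c

theorem compactProb_map {μ : Measure ℝ} (hμ : CompactProb μ) {c : ℝ} (hc : 0 < c) :
    CompactProb (μ.map fun x => c * x) := by
  obtain ⟨hp, C, hC⟩ := hμ
  refine ⟨Measure.isProbabilityMeasure_map (cm_meas c).aemeasurable, c * C, ?_⟩
  rw [Measure.map_apply (cm_meas c) measurableSet_Icc.compl]
  refine measure_mono_null ?_ hC
  intro x hx h
  apply hx
  rw [Set.mem_Icc] at h ⊢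
  constructor
  · rw [← mul_neg]
    exact mul_le_mul_of_nonneg_left h.1 hc.le
  · exact mul_le_mul_of_nonneg_left h.2 hc.le

theorem isRTransform_map {μ : Measure ℝ} {R : ℂ → ℂ} (h : IsRTransform μ R) {c : ℝ} (hc : 0 < c) :
    IsRTransform (μ.map fun x => c * x) (fun z => c * R (c * z)) := by
  have hcc : (c : ℂ) ≠ 0 := by exact_mod_cast hc.ne'
  obtain ⟨h1, h2⟩ := h
  refine ⟨?_, ?_⟩
  · have h3 : AnalyticAt ℂ (fun z : ℂ => (c : ℂ) * z) 0 := analyticAt_const.mul analyticAt_id
    have h4 : AnalyticAt ℂ (fun z : ℂ => R ((c : ℂ) * z)) 0 := by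
      apply AnalyticAt.fun_comp (g := R) (f := fun z : ℂ => (c : ℂ) * z) _ h3
      simpa using h1
    exact analyticAt_const.mul h4
  · have h3 : Tendsto (fun z : ℂ => (c : ℂ) * z) (𝓝[≠] 0) (𝓝[≠] 0) := by
      apply tendsto_nhdsWithin_of_tendsto_nhds_of_eventually_within
      · have : Tendsto (fun z : ℂ => (c : ℂ) * z) (𝓝 0) (𝓝 ((c : ℂ) * 0)) :=
          (continuous_const.mul continuous_id).tendsto 0
        rw [mul_zero] at this
        exact this.mono_left nhdsWithin_le_nhds
      · filter_upwards [self_mem_nhdsWithin] with z hz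
        exact mul_ne_zero hcc hz
    filter_upwards [h3.eventually h2, self_mem_nhdsWithin] with z hz hz0
    have hz0' : z ≠ 0 := hz0
    have h4 : cauchyT (μ.map fun x => c * x) ((c : ℂ) * R (c * z) + 1 / z) =
        (c : ℂ)⁻¹ * cauchyT μ (R (c * z) + 1 / (c * z)) := by
      unfold cauchyT
      rw [integral_map (cm_meas c).aemeasurable
        (by
          apply Measurable.aestronglyMeasurable
          exact (measurable_const.sub Complex.measurable_ofReal).inv), ← integral_const_mul]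
      congr 1
      funext x
      rw [← mul_inv]
      congr 1
      push_cast
      field_simp
    rw [h4, hz]
    field_simp

theorem freelyInfDiv_map {μ : Measure ℝ} (h : FreelyInfDiv μ) {c : ℝ} (hc : 0 < c) :
    FreelyInfDiv (μ.map fun x => c * x) := by
  intro k hk
  obtain ⟨ν, hν, R, h1, h2⟩ := h k hk
  refine ⟨ν.map fun x => c * x, compactProb_map hν hc, fun z => c * R (c * z),
    isRTransform_map h1 hc, ?_⟩
  have := isRTransform_map h2 hc
  have e : (fun z : ℂ => (k : ℂ) * ((c : ℂ) * R (c * z))) =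
      fun z : ℂ => (c : ℂ) * ((k : ℂ) * R (c * z)) := by
    funext z; ring
  rw [e]
  exact this

/-- dilations by factors which converge to `c` -/
theorem adm_smul {μ : Measure ℝ} [IsProbabilityMeasure μ] {C : ℝ}
    (hμ : μ (Set.Icc (-C) C)ᶜ = 0) {ω : ℕ → ℝ} (h1 : ∀ i, ω i ∈ Set.Icc (-C) C)
    (h2 : ∀ k : ℕ, Tendsto (fun n : ℕ => (∑ i ∈ Finset.range n, ω i ^ k) / (n : ℝ)) atTop
      (𝓝 (∫ x, x ^ k ∂μ))) {s : ℕ → ℝ} {c : ℝ} {D : ℝ} (hD : ∀ n, |s n| ≤ D)
    (hs : Tendsto s atTop (𝓝 c)) :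
    Admissible (fun n => dm (fun i : Fin n => s n * ω i)) (μ.map fun x => c * x) := by
  have hC0 : 0 ≤ C := by
    have := (h1 0).1.trans (h1 0).2
    linarith
  have hD0 : 0 ≤ D := (abs_nonneg _).trans (hD 0)
  have hcD : |c| ≤ D := le_of_tendsto hs.abs (Eventually.of_forall hD)
  apply adm_of_avg (C := D * C)
  · intro n i
    rw [abs_mul]
    exact mul_le_mul (hD n) (abs_le.2 (h1 i)) (abs_nonneg _) hD0
  · intro φ hφ
    have h3 := tendsto_avg hμ h1 h2 (φ := fun x => φ (c * x)) (hφ.comp (continuous_const_mul c))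
    rw [integral_map (cm_meas c).aemeasurable hφ.aestronglyMeasurable]
    have huc : UniformContinuousOn φ (Set.Icc (-(D * C)) (D * C)) :=
      isCompact_Icc.uniformContinuousOn_of_continuous hφ.continuousOn
    have hdiff : Tendsto (fun n : ℕ => (∑ i : Fin n, φ (s n * ω i)) / (n : ℝ) -
        (∑ i ∈ Finset.range n, φ (c * ω i)) / (n : ℝ)) atTop (𝓝 0) := by
      rw [Metric.tendsto_atTop]
      intro ε hε
      obtain ⟨δ, hδ, hδ'⟩ := Metric.uniformContinuousOn_iff.1 huc (ε / 2) (by positivity)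
      obtain ⟨n0, hn0⟩ := Metric.tendsto_atTop.1 hs (δ / (C + 1)) (by positivity)
      refine ⟨n0 + 1, fun n hn => ?_⟩
      have hn1 : (0 : ℝ) < n := by
        have : 0 < n := by omega
        exact_mod_cast this
      rw [Real.dist_eq, sub_zero, Finset.sum_range, ← sub_div, ← Finset.sum_sub_distrib, abs_div,
        abs_of_pos hn1, div_lt_iff₀ hn1]
      refine lt_of_le_of_lt (Finset.abs_sum_le_sum_abs _ _) ?_
      have hterm : ∀ i : Fin n, |φ (s n * ω i) - φ (c * ω i)| ≤ ε / 2 := by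
        intro i
        have hω := abs_le.2 (h1 i)
        have m1 : s n * ω i ∈ Set.Icc (-(D * C)) (D * C) := by
          apply abs_le.1
          rw [abs_mul]
          exact mul_le_mul (hD n) hω (abs_nonneg _) hD0
        have m2 : c * ω i ∈ Set.Icc (-(D * C)) (D * C) := by
          apply abs_le.1
          rw [abs_mul]
          exact mul_le_mul hcD hω (abs_nonneg _) hD0
        have h4 := hδ' _ m1 _ m2 (by
          rw [Real.dist_eq, ← sub_mul, abs_mul]
          have h5 := hn0 n (by omega)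
          rw [Real.dist_eq, lt_div_iff₀ (by positivity)] at h5
          have h6 : |s n - c| * |ω i| ≤ |s n - c| * C := mul_le_mul_of_nonneg_left hω (abs_nonneg _)
          nlinarith [abs_nonneg (s n - c)])
        rw [Real.dist_eq] at h4
        exact h4.le
      calc ∑ i : Fin n, |φ (s n * ω i) - φ (c * ω i)| ≤ ∑ _i : Fin n, ε / 2 :=
            Finset.sum_le_sum fun i _ => hterm i
        _ = n * (ε / 2) := by simp
        _ < ε * n := by nlinarith
    have h6 := h3.add hdiff
    rw [add_zero] at h6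
    refine h6.congr fun n => ?_
    ring

end Pool.Agent.KS6_75.SI
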