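import Mathlib
import Pool.Graph.R_seed8.Helper509.SphDefs
import Pool.Graph.R_seed8.Helper509.Semi
import Pool.Graph.R_seed8.Helper509.Emp
import Pool.Graph.R_seed8.Y381.Sph.Adm
import Pool.Agent.KS6_75.SI.Scale

/-!
Failure of the convergence `f_n(z) → R(z)` at every point of the upper half-plane.
-/

set_option autoImplicit false

open MeasureTheory Filter Topology Finset Matrix

namespace Pool.Agent.KS6_75.SI

open Pool.Agent.Helper509.SphDefs Pool.Agent.Helper509.SphRed Pool.Agent.Helper509.Emp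
  Pool.Agent.Helper509.Semi Pool.Agent.Y381.Sph

/-- a positive outlier -/
theorem outlier_pos {μ : Measure ℝ} (hμ : CompactProb μ) {z : ℂ} (hz : 0 < z.re) :
    ∀ᶠ c : ℝ in atTop, ∃ E : ∀ n : ℕ, Matrix (Fin n) (Fin n) ℂ, Admissible E μ ∧
      Tendsto (fun n : ℕ => fn n (E n) z) atTop (𝓝 (c - 1 / z)) := by
  obtain ⟨hp, C, hC⟩ := hμ
  obtain ⟨ω, h1, h2⟩ := exists_points hC
  set B : ℝ := max C 1 with hB
  have hB0 : 0 < B := lt_of_lt_of_le one_pos (le_max_right _ _)
  filter_upwards [big_eventually (B := B) z hz] with c hc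
  refine ⟨_, adm_outlier hC h1 h2 c, ?_⟩
  have h3 := out_tendsto (B := B) hB0 hz hc
    (d := fun K => fun i : Fin (K + 2) => if (i : ℕ) = 0 then c else ω i)
    (fun K => by simp) (fun K j => by
      simp only [Fin.val_succ, Nat.succ_ne_zero, if_false]
      exact (abs_le.2 (h1 _)).trans (le_max_left _ _))
  exact (tendsto_add_atTop_iff_nat 2).1 h3

/-- a negative outlier -/
theorem outlier_neg {μ : Measure ℝ} (hμ : CompactProb μ) {z : ℂ} (hz : z.re < 0) :
    ∀ᶠ c : ℝ in atTop, ∃ E : ∀ n : ℕ, Matrix (Fin n) (Fin n) ℂ, Admissible E μ ∧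
      Tendsto (fun n : ℕ => fn n (E n) z) atTop (𝓝 (-c - 1 / z)) := by
  obtain ⟨hp, C, hC⟩ := hμ
  obtain ⟨ω, h1, h2⟩ := exists_points hC
  set B : ℝ := max C 1 with hB
  have hB0 : 0 < B := lt_of_lt_of_le one_pos (le_max_right _ _)
  have hz' : 0 < (-z).re := by rw [Complex.neg_re]; linarith
  filter_upwards [big_eventually (B := B) (-z) hz'] with c hc
  refine ⟨_, adm_outlier hC h1 h2 (-c), ?_⟩
  have h3 := out_tendsto (B := B) hB0 hz' hc
    (d := fun K => fun i : Fin (K + 2) => -(if (i : ℕ) = 0 then -c else ω i))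
    (fun K => by simp) (fun K j => by
      simp only [Fin.val_succ, Nat.succ_ne_zero, if_false, abs_neg]
      exact (abs_le.2 (h1 _)).trans (le_max_left _ _))
  have h4 := h3.neg
  have e : -((c : ℂ) - 1 / -z) = -c - 1 / z := by rw [div_neg]; ring
  rw [e] at h4
  refine (tendsto_add_atTop_iff_nat 2).1 (h4.congr fun K => ?_)
  exact (fn_neg (fun i : Fin (K + 1 + 1) => if (i : ℕ) = 0 then -c else ω i) z).symm

/-- **Off the imaginary axis.** -/
theorem off_axis {μ : Measure ℝ} (hμ : CompactProb μ) {z : ℂ} (hz : z.re ≠ 0) :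
    ∃ c₀ : ℝ, ∀ c : ℝ, c₀ ≤ |c| → 0 < c * z.re → ∃ E : ∀ n : ℕ, Matrix (Fin n) (Fin n) ℂ,
      Admissible E μ ∧ Tendsto (fun n : ℕ => fn n (E n) z) atTop (𝓝 (c - 1 / z)) := by
  rcases lt_or_gt_of_ne hz with h | h
  · obtain ⟨c₀, hc₀⟩ := eventually_atTop.1 (outlier_neg hμ h)
    refine ⟨c₀, fun c hc hcz => ?_⟩
    have hc0 : c < 0 := by
      by_contra hcon
      push Not at hcon
      have := mul_nonpos_of_nonneg_of_nonpos hcon h.le
      linarith
    rw [abs_of_neg hc0] at hc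
    obtain ⟨E, hE, hl⟩ := hc₀ (-c) hc
    refine ⟨E, hE, ?_⟩
    simpa using hl
  · obtain ⟨c₀, hc₀⟩ := eventually_atTop.1 (outlier_pos hμ h)
    refine ⟨c₀, fun c hc hcz => ?_⟩
    have hc0 : 0 < c := pos_of_mul_pos_left hcz h.le
    rw [abs_of_pos hc0] at hc
    exact hc₀ c hc

/-- **On the imaginary axis.** -/
theorem on_axis {y0 : ℝ} (hy0 : 0 < y0) : ∃ c : ℝ, 0 < c ∧
    ∃ E : ∀ n : ℕ, Matrix (Fin n) (Fin n) ℂ, Admissible E (semicircle.map fun x => c * x) ∧
      ¬ Tendsto (fun n : ℕ => fn n (E n) (Complex.I * y0)) atTop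
        (𝓝 ((c : ℂ) * (c * (Complex.I * y0)))) := by
  have hC : semicircle (Set.Icc (-2) 2)ᶜ = 0 := semicircle_support
  have hpr : IsProbabilityMeasure semicircle := compactProb_semicircle.1
  obtain ⟨ω, h1, h2⟩ := exists_points hC
  have hbad := fun K : ℕ => exists_bad (N := K) (B := 2) (by norm_num) (fun i => ω i)
    (fun i => by exact_mod_cast abs_le.2 (h1 i))
  choose y hy hyb using hbad
  obtain ⟨ys, hys, φ, hφ, hlim⟩ := isCompact_Icc.tendsto_subseq hy
  have hys0 : 0 < ys := lt_of_lt_of_le (by norm_num) hys.1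
  set c : ℝ := ys / y0 with hc
  have hc0 : 0 < c := by positivity
  classical
  let s : ℕ → ℝ := fun n => if ∃ k, φ k + 1 = n then y (n - 1) / y0 else c
  have hsφ : ∀ k, s (φ k + 1) = y (φ k) / y0 := by
    intro k
    simp only [s]
    rw [if_pos ⟨k, rfl⟩, Nat.add_sub_cancel]
  have hs : Tendsto s atTop (𝓝 c) := by
    rw [Metric.tendsto_atTop]
    intro ε hε
    obtain ⟨k0, hk0⟩ := Metric.tendsto_atTop.1 hlim (ε * y0) (by positivity)
    refine ⟨φ k0 + 1, fun n hn => ?_⟩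
    by_cases hex : ∃ k, φ k + 1 = n
    · obtain ⟨k, rfl⟩ := hex
      have hk : k0 ≤ k := by
        have : φ k0 ≤ φ k := by omega
        exact hφ.le_iff_le.1 this
      have h3 := hk0 k hk
      rw [hsφ, hc, Real.dist_eq, ← sub_div, abs_div, abs_of_pos hy0, div_lt_iff₀ hy0]
      rw [Function.comp_apply, Real.dist_eq] at h3
      exact h3
    · have : s n = c := by simp only [s]; rw [if_neg hex]
      rw [this, dist_self]
      exact hε
  have hsb : ∀ n, |s n| ≤ 2000 / y0 := by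
    intro n
    simp only [s]
    have hb : ∀ x ∈ Set.Icc (250 * ((2 : ℕ) : ℝ)) (1000 * ((2 : ℕ) : ℝ)), |x / y0| ≤ 2000 / y0 := by
      intro x hx
      have hx0 : 0 ≤ x := le_trans (by norm_num) hx.1
      rw [abs_div, abs_of_pos hy0, abs_of_nonneg hx0]
      apply div_le_div_of_nonneg_right _ hy0.le
      have := hx.2
      push_cast at this
      linarith
    split_ifs with h
    · exact hb _ (hy _)
    · exact hb _ hys
  refine ⟨c, hc0, _, adm_smul hC h1 h2 hsb hs, ?_⟩
  intro hcon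
  have h3 : Tendsto (fun k : ℕ => φ k + 1) atTop atTop :=
    (tendsto_add_atTop_nat 1).comp hφ.tendsto_atTop
  have h4 := hcon.comp h3
  have h5 : ∀ k : ℕ, fn (φ k + 1) (dm fun i : Fin (φ k + 1) => s (φ k + 1) * ω i) (Complex.I * y0) =
      s (φ k + 1) * fn (φ k + 1) (dm fun i : Fin (φ k + 1) => ω i) (Complex.I * y (φ k)) := by
    intro k
    rw [fn_smul]
    congr 2
    rw [hsφ]
    have : (y0 : ℂ) ≠ 0 := by exact_mod_cast hy0.ne'
    push_cast
    field_simp
  have h6 : Tendsto (fun k : ℕ => (s (φ k + 1) : ℂ) * (Complex.I * y (φ k))) atTop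
      (𝓝 ((c : ℂ) * (Complex.I * ys))) := by
    apply Tendsto.mul
    · exact (Complex.continuous_ofReal.tendsto c).comp (hs.comp h3)
    · exact ((Complex.continuous_ofReal.tendsto ys).comp hlim).const_mul _
  have h7 : (c : ℂ) * (c * (Complex.I * y0)) = (c : ℂ) * (Complex.I * ys) := by
    have : (y0 : ℂ) ≠ 0 := by exact_mod_cast hy0.ne'
    rw [hc]
    push_cast
    field_simp
  rw [h7] at h4
  have h8 := (h4.sub h6).norm
  rw [sub_self, norm_zero] at h8
  have h9 : ∀ k : ℕ, s (φ k + 1) ≤ ‖(fun n : ℕ => fn n (dm fun i : Fin n => s n * ω i)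
      (Complex.I * y0)) (φ k + 1) - (s (φ k + 1) : ℂ) * (Complex.I * y (φ k))‖ := by
    intro k
    simp only
    rw [h5, ← mul_sub, norm_mul, Complex.norm_real]
    have hpos : 0 < s (φ k + 1) := by
      rw [hsφ]
      exact div_pos (lt_of_lt_of_le (by norm_num) (hy (φ k)).1) hy0
    rw [Real.norm_of_nonneg hpos.le]
    have := hyb (φ k)
    nlinarith
  have h10 : c ≤ 0 := le_of_tendsto_of_tendsto' (hs.comp h3) h8 h9
  linarith

end Pool.Agent.KS6_75.SI
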